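import Pool.Agent.H4.Pol.Count

/-! Statement of the second construction for MP_18b2cf_co. -/

namespace Pool.Agent.H4.Pol2

open Pool.Agent.H4.Pol (numTypes)

/-- The count given by the second construction (`m (r - 1) + 1` blocks of `2 k + B` parameters
in each of `m` planes, `r * r` classes of `k` new vertices). -/
def Construct2 : Prop := ∀ (m o r k B F : ℕ), 2 ≤ m → o ≤ 1 → 1 ≤ r → 1 ≤ k → 1 ≤ B →
  (k.factorial ^ ((m - 1) * (r * r))) * (B ^ (m - 1)) ^ ((2 * m + o) * (r * r * k)) ≤
    numTypes (2 * m + o) (2 * m * ((m * (r - 1) + 1) * (2 * k + B)) + 2 * o + F + r * r * k) *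
      (2 * m * ((m * (r - 1) + 1) * (2 * k + B)) + 2 * o + F + r * r * k) ^
        (2 * m * ((m * (r - 1) + 1) * (2 * k + B)) + 2 * o + F)

end Pool.Agent.H4.Pol2
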