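import Pool.Agent.H4.Pol.Seed
import Pool.Agent.H4.Pol2.Stmt

/-! Abstract form of the second construction: isolated pairs of vertices in `m` planes, and new
vertices separated by the supporting hyperplanes through the pairs. -/

namespace Pool.Agent.H4.Pol2

open Set Filter Topology
open Pool.Agent.H4.Pol

/-- the ambient space -/
abbrev YY (m o : ℕ) := (Fin m → P2) × (Fin o → ℝ)

lemma finrank_YY (m o : ℕ) : Module.finrank ℝ (YY m o) = 2 * m + o := by
  simp only [YY, P2, Module.finrank_prod, Module.finrank_self, Module.finrank_pi_fintype,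
    Finset.sum_const, Finset.card_univ, Fintype.card_fin, smul_eq_mul]
  ring

variable {m o : ℕ} {K : Type} {F : ℕ}

/-- the functional with coefficients `A, b` -/
def Lg (A : Fin m → P2) (b : Fin o → ℝ) : YY m o →ₗ[ℝ] ℝ where
  toFun x := ∑ j, dot (A j) (x.1 j) + ∑ i, b i * x.2 i
  map_add' x y := by
    simp only [dot, Prod.fst_add, Prod.snd_add, Pi.add_apply, mul_add, Finset.sum_add_distrib]
    ring
  map_smul' c x := by
    simp only [dot, Prod.smul_fst, Prod.smul_snd, Pi.smul_apply, smul_eq_mul, RingHom.id_apply,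
      mul_add, Finset.mul_sum]
    congr 1
    · refine Finset.sum_congr rfl fun j _ => ?_
      ring
    · refine Finset.sum_congr rfl fun j _ => ?_
      ring

lemma Lg_apply (A : Fin m → P2) (b : Fin o → ℝ) (x : YY m o) :
    Lg A b x = ∑ j, dot (A j) (x.1 j) + ∑ i, b i * x.2 i := rfl

lemma Lg_block (A : Fin m → P2) (b : Fin o → ℝ) (j : Fin m) (x : P2) :
    Lg A b (Pi.single j x, 0) = dot (A j) x := by
  rw [Lg_apply]
  simp only [Pi.zero_apply, mul_zero, Finset.sum_const_zero, add_zero]
  rw [Finset.sum_eq_single j]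
  · simp
  · intro i _ hi
    simp [Pi.single_eq_of_ne hi, dot_zero_right]
  · simp

lemma Lg_seg (A : Fin m → P2) (b : Fin o → ℝ) (i : Fin o) (x : ℝ) :
    Lg A b (0, Pi.single i x) = b i * x := by
  rw [Lg_apply]
  simp only [dot_zero_right, Pi.zero_apply, Finset.sum_const_zero, zero_add]
  rw [Finset.sum_eq_single i]
  · simp
  · intro j _ hj
    simp [Pi.single_eq_of_ne hj]
  · simp

/-- indices of base vertices -/
abbrev BI (m o : ℕ) (K : Type) (F : ℕ) := (Fin m × K × Bool) ⊕ (Fin F ⊕ (Fin o × Bool))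

/-- a planar vertex -/
noncomputable def bl (o : ℕ) (par : Fin m → K ⊕ Fin F → ℝ) (h : ℝ) (j : Fin m) (p : K ⊕ Fin F)
    (e : Bool) : YY m o :=
  (Pi.single j (qv (par j p) (par j p + sg e * h)), 0)

/-- base vertices -/
noncomputable def Vb (j0 : Fin m) (par : Fin m → K ⊕ Fin F → ℝ) (h : ℝ) : BI m o K F → YY m o
  | .inl (j, κ, e) => bl o par h j (.inl κ) e
  | .inr (.inl f) => bl o par h j0 (.inr f) true
  | .inr (.inr (i, e)) => (0, Pi.single i (sg e))

/-- the smallness conditions -/
structure Small (par : Fin m → K ⊕ Fin F → ℝ) (h : ℝ) : Prop where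
  hpos : 0 < h
  h1 : ∀ j p, |par j p| + h < 1
  h2 : ∀ j p p', p ≠ p' → 2 * h < |par j p - par j p'|

lemma exists_small [Finite K] (par : Fin m → K ⊕ Fin F → ℝ) (h1 : ∀ j p, |par j p| < 1)
    (h2 : ∀ j, Function.Injective (par j)) : ∃ h, Small par h := by
  have hf : ∀ (f : ℝ → ℝ) (a b : ℝ), f = (fun h => a + b * h) → a < 0 →
      ∀ᶠ h in 𝓝[>] (0 : ℝ), f h < 0 := by
    intro f a b hf ha
    have hc : ContinuousAt f 0 := by rw [hf]; fun_prop
    have h0 : f 0 < 0 := by rw [hf]; simpa using ha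
    exact (hc.eventually (eventually_lt_nhds h0)).filter_mono nhdsWithin_le_nhds
  have e0 : ∀ᶠ h in 𝓝[>] (0 : ℝ), 0 < h := self_mem_nhdsWithin
  have e1 : ∀ᶠ h in 𝓝[>] (0 : ℝ), ∀ j p, |par j p| + h < 1 := by
    rw [eventually_all]; intro j
    rw [eventually_all]; intro p
    have := hf (fun h => (|par j p| - 1) + 1 * h) _ _ rfl (by linarith [h1 j p])
    exact this.mono fun h hh => by linarith
  have e2 : ∀ᶠ h in 𝓝[>] (0 : ℝ), ∀ j p p', p ≠ p' → 2 * h < |par j p - par j p'| := by
    rw [eventually_all]; intro j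
    rw [eventually_all]; intro p
    rw [eventually_all]; intro p'
    by_cases hp : p = p'
    · exact Eventually.of_forall fun _ h => absurd hp h
    · have h3 : 0 < |par j p - par j p'| := by
        rw [abs_pos, sub_ne_zero]
        intro h
        exact hp (h2 j h)
      have := hf (fun h => (-|par j p - par j p'|) + 2 * h) _ _ rfl (by linarith)
      exact this.mono fun h hh _ => by linarith
  obtain ⟨h, ⟨⟨a, b⟩, c⟩⟩ := ((e0.and e1).and e2).exists
  exact ⟨h, a, b, c⟩

section values

variable {par : Fin m → K ⊕ Fin F → ℝ} {h : ℝ} (hs : Small par h)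

include hs

lemma par_bound (j : Fin m) (p : K ⊕ Fin F) (e : Bool) : |par j p + sg e * h| < 1 := by
  have h1 := hs.h1 j p
  have h2 := hs.hpos
  have h3 : |sg e * h| ≤ h := by
    cases e <;> simp [sg, abs_of_pos h2]
  exact (abs_add_le _ _).trans_lt (by linarith)

lemma bl_val (A : Fin m → P2) (b : Fin o → ℝ) (j : Fin m) (p : K ⊕ Fin F)
    (e : Bool) {x : ℝ} (hA : A j = av x) :
    Lg A b (bl o par h j p e) =
      1 - (x - par j p) * (x - par j p - sg e * h) / (1 + par j p * (par j p + sg e * h)) ∧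
      0 < (1 + par j p * (par j p + sg e * h)) := by
  have hp : 0 < (1 + par j p * (par j p + sg e * h)) := by
    apply one_add_pos _ (par_bound hs j p e)
    have := hs.h1 j p
    have := hs.hpos
    linarith
  refine ⟨?_, hp⟩
  unfold bl
  rw [Lg_block, hA, dot_av_qv hp.ne']
  congr 2
  ring

lemma bl_lt (A : Fin m → P2) (b : Fin o → ℝ) (j : Fin m) (p p' : K ⊕ Fin F)
    (e' : Bool) (t : ℝ) (ht : |t| ≤ 1 / 2) (hA : A j = av (par j p + t * h))
    (hpp : p ≠ p') : Lg A b (bl o par h j p' e') < 1 := by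
  obtain ⟨h1, h2⟩ := bl_val hs A b j p' e' hA
  rw [h1]
  have h3 := hs.h2 j p p' hpp
  have hh := hs.hpos
  obtain ⟨ht1, ht2⟩ := abs_le.1 ht
  have h4 : 0 < (par j p + t * h - par j p') * (par j p + t * h - par j p' - sg e' * h) := by
    have hth : |t * h| ≤ h / 2 := by
      rw [abs_mul, abs_of_pos hh]; nlinarith
    have hth' := abs_le.1 hth
    have he : sg e' * h ≤ h ∧ -h ≤ sg e' * h := by
      cases e' <;> simp [sg] <;> linarith
    rcases lt_abs.1 h3 with h5 | h5
    · exact mul_pos (by linarith) (by linarith)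
    · exact mul_pos_of_neg_of_neg (by linarith) (by linarith)
  have := div_pos h4 h2
  linarith

lemma bl_eq (A : Fin m → P2) (b : Fin o → ℝ) (j : Fin m) (p : K ⊕ Fin F)
    (e : Bool) (hA : A j = av (par j p)) : Lg A b (bl o par h j p e) = 1 := by
  obtain ⟨h1, h2⟩ := bl_val hs A b j p e hA
  rw [h1]; simp

lemma bl_gt (A : Fin m → P2) (b : Fin o → ℝ) (j : Fin m) (p : K ⊕ Fin F)
    (e : Bool) (hA : A j = av (par j p + (sg e / 2) * h)) :
    1 < Lg A b (bl o par h j p e) := by
  obtain ⟨h1, h2⟩ := bl_val hs A b j p e hA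
  rw [h1]
  have hh := hs.hpos
  have h3 : (par j p + (sg e / 2) * h - par j p) *
      (par j p + (sg e / 2) * h - par j p - sg e * h) < 0 := by
    have h4 : (par j p + (sg e / 2) * h - par j p) *
      (par j p + (sg e / 2) * h - par j p - sg e * h) =
      - (sg e * sg e) * (h * h) / 4 := by ring
    rw [h4, sg_mul_self]
    have := mul_pos hh hh
    linarith
  have := div_neg_of_neg_of_pos h3 h2
  linarith

lemma bl_lt' (A : Fin m → P2) (b : Fin o → ℝ) (j : Fin m) (p : K ⊕ Fin F)
    (e e' : Bool) (he : e ≠ e') (hA : A j = av (par j p + (sg e / 2) * h)) :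
    Lg A b (bl o par h j p e') < 1 := by
  obtain ⟨h1, h2⟩ := bl_val hs A b j p e' hA
  rw [h1]
  have hh := hs.hpos
  have h3 : 0 < (par j p + (sg e / 2) * h - par j p) *
      (par j p + (sg e / 2) * h - par j p - sg e' * h) := by
    have h4 : (par j p + (sg e / 2) * h - par j p) *
      (par j p + (sg e / 2) * h - par j p - sg e' * h) =
      (sg e * sg e / 4 - sg e * sg e' / 2) * (h * h) := by ring
    rw [h4, sg_mul_self]
    have h5 : sg e * sg e' = -1 := by
      cases e <;> cases e' <;> simp_all [sg]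
    rw [h5]
    have := mul_pos hh hh
    nlinarith
  have := div_pos h3 h2
  linarith

end values

/-- test functional -/
noncomputable def Lt (par : Fin m → K ⊕ Fin F → ℝ) (t : Fin m → K) (e : Fin o → Bool) :
    YY m o →ₗ[ℝ] ℝ :=
  Lg (fun j => av (par j (.inl (t j)))) (fun i => sg (e i))

/-- all vertices -/
noncomputable def VV {N : Type} (j0 : Fin m) (par : Fin m → K ⊕ Fin F → ℝ) (h : ℝ)
    (X : N → YY m o) : BI m o K F ⊕ N → YY m o :=
  Sum.elim (Vb j0 par h) X

section

variable {par : Fin m → K ⊕ Fin F → ℝ} {h : ℝ} {j0 : Fin m} (hs : Small par h)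

include hs

/-- the test functional on base vertices is at most one -/
lemma Lt_base_le (t : Fin m → K) (e : Fin o → Bool) (v : BI m o K F) :
    Lt par t e (Vb j0 par h v) ≤ 1 := by
  have hb : ∀ j p e', Lt (o := o) par t e (bl o par h j p e') ≤ 1 := by
    intro j p e'
    by_cases hp : (.inl (t j) : K ⊕ Fin F) = p
    · exact (bl_eq hs _ _ j p e' (by rw [← hp])).le
    · refine (bl_lt hs _ _ j (.inl (t j)) p e' 0 (by norm_num) ?_ hp).le
      simp
  rcases v with ⟨j, κ, e'⟩ | f | ⟨i', e'⟩
  · exact hb _ _ _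
  · exact hb _ _ _
  · simp only [Lt, Vb]
    rw [Lg_seg]
    exact sg_mul_le _ _

/-- A functional constant on the contact set of a test functional is a multiple of it. -/
lemma span_lemma (t : Fin m → K) (e : Fin o → Bool) (f : YY m o →ₗ[ℝ] ℝ) (c : ℝ)
    (hf : ∀ v : BI m o K F, Lt par t e (Vb j0 par h v) = 1 → f (Vb j0 par h v) = c) :
    f = c • Lt par t e := by
  set L := Lt (o := o) par t e with hL
  have hG : ∀ v : BI m o K F, L (Vb j0 par h v) = 1 → (f - c • L) (Vb j0 par h v) = 0 := by
    intro v hv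
    rw [LinearMap.sub_apply, LinearMap.smul_apply, hf v hv, hv]
    simp
  suffices h0 : f - c • L = 0 from sub_eq_zero.1 h0
  apply LinearMap.prod_ext
  · apply LinearMap.pi_ext'
    intro j
    rw [LinearMap.zero_comp, LinearMap.zero_comp]
    have h1 := hG (.inl (j, t j, true)) (bl_eq hs _ _ j (.inl (t j)) true rfl)
    have h2 := hG (.inl (j, t j, false)) (bl_eq hs _ _ j (.inl (t j)) false rfl)
    refine lin2 (u := qv (par j (.inl (t j))) (par j (.inl (t j)) + sg true * h))
      (v := qv (par j (.inl (t j))) (par j (.inl (t j)) + sg false * h)) ?_ ?_ ?_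
    · exact h1
    · exact h2
    · apply det_qv
      · have := hs.h1 j (.inl (t j))
        have := hs.hpos
        linarith
      · exact par_bound hs j (.inl (t j)) true
      · exact par_bound hs j (.inl (t j)) false
      · have := hs.hpos
        simp only [sg]
        intro hh
        simp at hh
        linarith
  · apply LinearMap.pi_ext'
    intro i0
    rw [LinearMap.zero_comp, LinearMap.zero_comp]
    have h1 := hG (.inr (.inr (i0, e i0))) (by
      rw [hL]
      simp only [Lt, Vb]
      rw [Lg_seg]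
      exact sg_mul_self _)
    apply LinearMap.ext_ring
    have h2 : (f - c • L) ((0, Pi.single i0 (sg (e i0))) : YY m o) = 0 := h1
    have h3 : ((0, Pi.single i0 (sg (e i0))) : YY m o) =
        sg (e i0) • ((0, Pi.single i0 1) : YY m o) := by
      ext <;> simp [← Pi.single_smul]
    rw [h3, map_smul, smul_eq_mul] at h2
    have h4 : sg (e i0) ≠ 0 := by cases e i0 <;> simp [sg]
    exact (mul_eq_zero.1 h2).resolve_left h4

/-- a base vertex strictly below a test functional -/
lemma exists_low [Nontrivial K] (t : Fin m → K) (e : Fin o → Bool) :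
    ∃ v : BI m o K F, Lt par t e (Vb j0 par h v) < 1 := by
  obtain ⟨κ, hκ⟩ := exists_ne (t j0)
  refine ⟨.inl (j0, κ, true), ?_⟩
  refine bl_lt hs _ _ j0 (.inl (t j0)) (.inl κ) true 0 (by norm_num) (by simp) ?_
  intro hh
  exact hκ (Sum.inl_injective hh).symm

lemma VV_full [Nontrivial K] {N : Type} (X : N → YY m o) : Full (VV j0 par h X) := by
  intro f c hf
  obtain ⟨t⟩ := (inferInstance : Nonempty (Fin m → K))
  have h1 := span_lemma hs t (fun _ => true) f c (fun v _ => hf (.inl v))
  obtain ⟨v, hv⟩ := exists_low (o := o) (j0 := j0) hs t (fun _ => true)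
  have h2 : f (Vb j0 par h v) = c := hf (.inl v)
  rw [h1, LinearMap.smul_apply, smul_eq_mul] at h2
  have h3 : c = 0 := by
    by_contra hc
    have h4 : Lt par t (fun _ => true) (Vb j0 par h v) = 1 :=
      mul_left_cancel₀ hc (h2.trans (mul_one c).symm)
    exact absurd h4 hv.ne
  rw [h1, h3, zero_smul]

lemma bl_expose {N : Type} (X : N → YY m o)
    (hX1 : ∀ n j σ, dot (av σ) ((X n).1 j) < 1) (j : Fin m) (p : K ⊕ Fin F) (e : Bool)
    (v0 : BI m o K F) (hv0 : Vb (o := o) j0 par h v0 = bl o par h j p e)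
    (huniq : ∀ v : BI m o K F, v ≠ v0 → ∀ p' e', Vb (o := o) j0 par h v = bl o par h j p' e' →
      p' = p → e' ≠ e)
    (hblock : ∀ v : BI m o K F, (∃ j' p' e', Vb (o := o) j0 par h v = bl o par h j' p' e') ∨
      ∃ i x, Vb (o := o) j0 par h v = (0, Pi.single i x)) :
    ∃ l : YY m o →ₗ[ℝ] ℝ, ∀ j', j' ≠ (.inl v0 : BI m o K F ⊕ N) →
      l (VV j0 par h X j') < l (VV j0 par h X (.inl v0)) := by
  classical
  refine ⟨Lg (Pi.single j (av (par j p + (sg e / 2) * h))) 0, ?_⟩
  have hown : 1 < Lg (Pi.single j (av (par j p + (sg e / 2) * h))) 0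
      (VV j0 par h X (.inl v0)) := by
    simp only [VV, Sum.elim_inl, hv0]
    exact bl_gt hs _ _ j p e (by simp)
  rintro (v | n) hne
  · refine lt_trans ?_ hown
    simp only [VV, Sum.elim_inl]
    have hvne : v ≠ v0 := fun hh => hne (by rw [hh])
    rcases hblock v with ⟨j', p', e', hv⟩ | ⟨i, x, hv⟩
    · by_cases hj : j' = j
      · subst hj
        rw [hv]
        by_cases hp : p = p'
        · subst hp
          have := huniq v hvne p e' hv rfl
          exact bl_lt' hs _ _ j' p e e' this.symm (by simp)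
        · refine bl_lt hs _ _ j' p p' e' (sg e / 2) ?_ (by simp) hp
          cases e <;> simp [sg] <;> norm_num
      · rw [hv]
        unfold bl
        rw [Lg_block]
        simp [Pi.single_eq_of_ne hj, dot_zero_left]
    · rw [hv, Lg_seg]
      simp
  · refine lt_trans ?_ hown
    simp only [VV, Sum.elim_inr]
    have h1 := hX1 n j (par j p + (sg e / 2) * h)
    rw [Lg_apply, Finset.sum_eq_single j]
    · simpa using h1
    · intro j' _ hj'
      simp [Pi.single_eq_of_ne hj', dot_zero_left]
    · simp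

lemma VV_exp {N : Type} (X : N → YY m o)
    (hX1 : ∀ n j σ, dot (av σ) ((X n).1 j) < 1) (hX2 : ∀ n i, |(X n).2 i| < 1)
    (hX3 : ∀ n, ∃ (t : Fin m → K) (e : Fin o → Bool), 1 < Lt par t e (X n) ∧
      ∀ n', n' ≠ n → Lt par t e (X n') < 1) : Exp (VV j0 par h X) := by
  classical
  have hblock : ∀ v : BI m o K F, (∃ j' p' e', Vb (o := o) j0 par h v = bl o par h j' p' e') ∨
      ∃ i x, Vb (o := o) j0 par h v = (0, Pi.single i x) := by
    rintro (⟨j, κ, e⟩ | f | ⟨i, e⟩)
    · exact Or.inl ⟨_, _, _, rfl⟩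
    · exact Or.inl ⟨_, _, _, rfl⟩
    · exact Or.inr ⟨_, _, rfl⟩
  -- values of `bl` determine the indices
  have hinj : ∀ j p e j' p' e', bl o par h j p e = bl o par h j' p' e' → j = j' ∧ p = p' ∧
      e = e' := by
    intro j p e j' p' e' heq
    have hj : j = j' := by
      by_contra hj
      have h1 := congrArg (fun y : YY m o => (y.1 j).2) heq
      simp only [bl, Pi.single_eq_same, Pi.single_eq_of_ne hj] at h1
      have h2 := (bl_val (o := o) hs (Pi.single j (av 0)) 0 j p e (x := 0) (by simp)).2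
      have h3 : (qv (par j p) (par j p + sg e * h)).2 ≠ 0 := by
        simp only [qv]
        exact div_ne_zero (by norm_num) h2.ne'
      exact h3 h1
    subst hj
    have hpp : p = p' := by
      by_contra hp
      have h1 := bl_gt (o := o) hs (Pi.single j (av (par j p + (sg e / 2) * h))) 0 j p e (by simp)
      rw [heq] at h1
      have h2 := bl_lt (o := o) hs (Pi.single j (av (par j p + (sg e / 2) * h))) 0 j p p' e'
        (sg e / 2) (by cases e <;> simp [sg] <;> norm_num) (by simp) hp
      exact absurd h1 (not_lt.2 h2.le)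
    subst hpp
    refine ⟨rfl, rfl, ?_⟩
    by_contra he
    have h1 := bl_gt (o := o) hs (Pi.single j (av (par j p + (sg e / 2) * h))) 0 j p e (by simp)
    rw [heq] at h1
    have h2 := bl_lt' (o := o) hs (Pi.single j (av (par j p + (sg e / 2) * h))) 0 j p e e' he
      (by simp)
    exact absurd h1 (not_lt.2 h2.le)
  -- `bl` is not a segment vertex
  have hnseg : ∀ j p e i x, bl o par h j p e ≠ (0, Pi.single i x) := by
    intro j p e i x heq
    have h1 := congrArg (fun y : YY m o => (y.1 j).2) heq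
    simp only [bl, Pi.single_eq_same] at h1
    have h2 := (bl_val (o := o) hs (Pi.single j (av 0)) 0 j p e (x := 0) (by simp)).2
    have h3 : (qv (par j p) (par j p + sg e * h)).2 ≠ 0 := by
      simp only [qv]
      exact div_ne_zero (by norm_num) h2.ne'
    exact h3 h1
  rintro ((⟨j, κ, e⟩ | f | ⟨i0, e⟩) | n)
  · refine bl_expose hs X hX1 j (.inl κ) e _ rfl ?_ hblock
    rintro v hv p' e' hve hp rfl
    subst hp
    apply hv
    rcases v with ⟨j2, κ2, e2⟩ | f2 | ⟨i2, e2⟩
    · obtain ⟨h1, h2, h3⟩ := hinj _ _ _ _ _ _ hve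
      have h4 := Sum.inl_injective h2
      subst h1 h3 h4
      rfl
    · obtain ⟨h1, h2, h3⟩ := hinj _ _ _ _ _ _ hve
      exact absurd h2 (by simp)
    · exact absurd hve.symm (hnseg _ _ _ _ _)
  · refine bl_expose hs X hX1 j0 (.inr f) true _ rfl ?_ hblock
    rintro v hv p' e' hve hp rfl
    subst hp
    apply hv
    rcases v with ⟨j2, κ2, e2⟩ | f2 | ⟨i2, e2⟩
    · obtain ⟨h1, h2, h3⟩ := hinj _ _ _ _ _ _ hve
      exact absurd h2 (by simp)
    · obtain ⟨h1, h2, h3⟩ := hinj _ _ _ _ _ _ hve
      have h4 := Sum.inr_injective h2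
      subst h4
      rfl
    · exact absurd hve.symm (hnseg _ _ _ _ _)
  · -- segments
    refine ⟨Lg 0 (Pi.single i0 (sg e)), ?_⟩
    have hown : Lg 0 (Pi.single i0 (sg e))
        (VV j0 par h X (.inl (.inr (.inr (i0, e))))) = 1 := by
      simp only [VV, Sum.elim_inl, Vb]
      rw [Lg_seg]
      simp [sg_mul_self]
    rintro ((⟨j', p', e'⟩ | f' | ⟨i', e'⟩) | n) hne
    · rw [hown]
      simp only [VV, Sum.elim_inl, Vb, bl]
      rw [Lg_block]
      simp [dot_zero_left]
    · rw [hown]
      simp only [VV, Sum.elim_inl, Vb, bl]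
      rw [Lg_block]
      simp [dot_zero_left]
    · rw [hown]
      simp only [VV, Sum.elim_inl, Vb]
      rw [Lg_seg]
      by_cases hi : i' = i0
      · subst hi
        have he : e ≠ e' := by rintro rfl; exact hne rfl
        simpa using sg_mul_lt he
      · simp [Pi.single_eq_of_ne hi]
    · rw [hown]
      simp only [VV, Sum.elim_inr]
      have h1 := abs_lt.1 (hX2 n i0)
      rw [Lg_apply, Finset.sum_eq_single (f := fun i => (Pi.single i0 (sg e) : Fin o → ℝ) i *
        (X n).2 i) i0]
      · cases e <;> simp [sg, dot_zero_left] <;> linarith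
      · intro j' _ hj'
        simp [Pi.single_eq_of_ne hj']
      · simp
  · -- new points
    obtain ⟨t, e, h1, h2⟩ := hX3 n
    refine ⟨Lt par t e, ?_⟩
    have hown : 1 < Lt par t e (VV j0 par h X (.inr n)) := h1
    rintro (v | n') hne
    · exact lt_of_le_of_lt (Lt_base_le hs t e v) hown
    · refine lt_trans (h2 n' ?_) hown
      rintro rfl
      exact hne rfl

/-- visibility determines whether the contact set of a test functional is a face -/
lemma face_iff [Nontrivial K] {N : Type} (X : N → YY m o) (t : Fin m → K) (e : Fin o → Bool)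
    (hm : 1 ≤ m) (hne1 : ∀ n, Lt par t e (X n) ≠ 1) :
    (Sum.inl '' {v : BI m o K F | Lt par t e (Vb j0 par h v) = 1} : Set (BI m o K F ⊕ N)) ∈
      FS (VV j0 par h X) ↔ ¬ ∃ n, 1 < Lt par t e (X n) := by
  constructor
  · rintro ⟨f, c, hle, hT, -⟩ ⟨n, hn⟩
    have h1 : f = c • Lt par t e := by
      apply span_lemma (j0 := j0) hs t e f c
      intro v hv
      have : (.inl v : BI m o K F ⊕ N) ∈
          (Sum.inl '' {v : BI m o K F | Lt par t e (Vb j0 par h v) = 1} :
            Set (BI m o K F ⊕ N)) := ⟨v, hv, rfl⟩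
      rw [hT] at this
      exact this
    obtain ⟨v, hv⟩ := exists_low (j0 := j0) hs t e
    have hN : 1 < Lt par t e (VV j0 par h X (.inr n)) := hn
    have h2 := hle (.inr n)
    have h3 := hle (.inl v)
    rw [h1, LinearMap.smul_apply, smul_eq_mul] at h2 h3
    have hv' : Lt par t e (VV j0 par h X (.inl v)) < 1 := hv
    have hc : c = 0 := by
      rcases lt_trichotomy c 0 with hc | hc | hc
      · nlinarith
      · exact hc
      · nlinarith
    have h4 : (.inr n : BI m o K F ⊕ N) ∈
        (Sum.inl '' {v : BI m o K F | Lt par t e (Vb j0 par h v) = 1} :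
          Set (BI m o K F ⊕ N)) := by
      rw [hT, h1, hc]
      simp
    obtain ⟨w, -, hw⟩ := h4
    cases hw
  · intro hno
    have hnew : ∀ n, Lt par t e (X n) < 1 := by
      intro n
      rcases lt_trichotomy (Lt par t e (X n)) 1 with h1 | h1 | h1
      · exact h1
      · exact absurd h1 (hne1 n)
      · exact absurd ⟨n, h1⟩ hno
    refine ⟨Lt par t e, 1, ?_, ?_, ?_⟩
    · rintro (v | n)
      · exact Lt_base_le hs t e v
      · exact (hnew n).le
    · ext v
      constructor
      · rintro ⟨w, hw, rfl⟩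
        exact hw
      · intro hv
        rcases v with v | p
        · exact ⟨v, hv, rfl⟩
        · exact absurd hv (hnew p).ne
    · refine ⟨.inl (.inl (⟨0, hm⟩, t ⟨0, hm⟩, true)), ?_⟩
      refine ⟨_, ?_, rfl⟩
      exact bl_eq hs _ _ _ (.inl (t ⟨0, hm⟩)) true rfl

end

/-- **Assembly.** -/
theorem assemble [Fintype K] [Nontrivial K] {N Γ : Type} [Fintype N] [Fintype Γ] (hm : 1 ≤ m)
    (par : Fin m → K ⊕ Fin F → ℝ) (hp1 : ∀ j p, |par j p| < 1)
    (hp2 : ∀ j, Function.Injective (par j)) (X : Γ → N → YY m o)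
    (hX1 : ∀ γ n j σ, dot (av σ) ((X γ n).1 j) < 1) (hX2 : ∀ γ n i, |(X γ n).2 i| < 1)
    (hX3 : ∀ γ n, ∃ (t : Fin m → K) (e : Fin o → Bool), 1 < Lt par t e (X γ n) ∧
      ∀ n', n' ≠ n → Lt par t e (X γ n') < 1)
    (hX4 : ∀ γ γ', γ ≠ γ' → ∃ (t : Fin m → K) (e : Fin o → Bool),
      (∀ n, Lt par t e (X γ n) ≠ 1) ∧ (∀ n, Lt par t e (X γ' n) ≠ 1) ∧
      ¬ ((∃ n, 1 < Lt par t e (X γ n)) ↔ ∃ n, 1 < Lt par t e (X γ' n))) :
    Fintype.card Γ ≤ numTypes (2 * m + o)
        (2 * m * Fintype.card K + 2 * o + F + Fintype.card N) *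
      (2 * m * Fintype.card K + 2 * o + F + Fintype.card N) ^
        (2 * m * Fintype.card K + 2 * o + F) := by
  classical
  obtain ⟨h, hs⟩ := exists_small par hp1 hp2
  let j0 : Fin m := ⟨0, hm⟩
  have hK : 0 < Fintype.card K := Fintype.card_pos
  have hcard : Fintype.card (BI m o K F ⊕ N) =
      2 * m * Fintype.card K + 2 * o + F + Fintype.card N := by
    simp only [BI, Fintype.card_sum, Fintype.card_prod, Fintype.card_fin, Fintype.card_bool]
    ring
  have hbase : (range (Sum.inl : BI m o K F → BI m o K F ⊕ N)).ncard ≤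
      2 * m * Fintype.card K + 2 * o + F := by
    rw [← image_univ, ncard_image_of_injective _ Sum.inl_injective, ncard_univ,
      Nat.card_eq_fintype_card]
    simp only [BI, Fintype.card_sum, Fintype.card_prod, Fintype.card_fin, Fintype.card_bool]
    apply le_of_eq
    ring
  have hpos : 1 ≤ 2 * m * Fintype.card K + 2 * o + F + Fintype.card N := by
    have : 1 ≤ 2 * m * Fintype.card K := Nat.mul_pos (by omega) hK
    omega
  refine card_le (d := 2 * m + o) hpos (finrank_YY m o) hcard (fun γ => VV j0 par h (X γ))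
    (fun γ => VV_exp hs (X γ) (hX1 γ) (hX2 γ) (hX3 γ)) (fun γ => VV_full hs (X γ)) _ _ hbase ?_
  intro γ γ' hne
  obtain ⟨t, e, h1, h2, h3⟩ := hX4 γ γ' hne
  refine ⟨Sum.inl '' {v : BI m o K F | Lt par t e (Vb j0 par h v) = 1},
    image_subset_range _ _, ?_⟩
  rw [face_iff hs (X γ) t e hm h1, face_iff hs (X γ') t e hm h2, not_iff_not]
  exact h3

end Pool.Agent.H4.Pol2
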