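import Mathlib

/-! A permutation is determined by its visibility pattern. -/

namespace Pool.Agent.H4.Pol2

/-- The pattern of a permutation determines it. -/
theorem rothe {k : ℕ} {p p' : Equiv.Perm (Fin k)}
    (h : ∀ a b : Fin k, (b ≤ p a ∨ a ≤ p.symm b) ↔ (b ≤ p' a ∨ a ≤ p'.symm b)) : p = p' := by
  -- one direction of the comparison
  have key : ∀ (p p' : Equiv.Perm (Fin k)),
      (∀ a b : Fin k, (b ≤ p a ∨ a ≤ p.symm b) ↔ (b ≤ p' a ∨ a ≤ p'.symm b)) →
      ∀ a : Fin k, (∀ a', a < a' → p a' = p' a') → ¬ p a < p' a := by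
    intro p p' h a hup hlt
    have hne : p.symm (p' a) ≠ a := by
      intro h1
      have h2 : p a = p' a := by
        rw [← h1]; simp
        rw [h1]
      exact absurd h2 hlt.ne
    have hlt2 : p.symm (p' a) < a := by
      rcases lt_or_gt_of_ne hne with h1 | h1
      · exact h1
      · exfalso
        have h2 := hup _ h1
        rw [Equiv.apply_symm_apply] at h2
        exact hne (p'.injective h2).symm
    have h1 := (h a (p' a)).2 (Or.inl le_rfl)
    rcases h1 with h1 | h1
    · exact absurd hlt (not_lt.2 h1)
    · exact absurd hlt2 (not_lt.2 h1)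
  have hall : ∀ n : ℕ, ∀ a : Fin k, k - 1 - (a : ℕ) = n → p a = p' a := by
    intro n
    induction n using Nat.strong_induction_on with
    | _ n ih =>
      intro a ha
      have hup : ∀ a', a < a' → p a' = p' a' := by
        intro a' haa
        have : (a : ℕ) < (a' : ℕ) := haa
        have := a'.2
        exact ih (k - 1 - (a' : ℕ)) (by omega) a' rfl
      rcases lt_trichotomy (p a) (p' a) with h1 | h1 | h1
      · exact absurd h1 (key p p' h a hup)
      · exact h1
      · exact absurd h1 (key p' p (fun a b => (h a b).symm) a (fun a' ha' => (hup a' ha').symm))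
  ext1 a
  exact hall _ a rfl

end Pool.Agent.H4.Pol2
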