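import Pool.Agent.H4.Pol2.Test
import Pool.Agent.H4.Pol2.Rothe

/-! The second construction. -/

namespace Pool.Agent.H4.Pol2

open Finset
open Pool.Agent.H4.Pol

variable {m o r k B : ℕ}

/-- number of blocks -/
abbrev SS (m r : ℕ) : ℕ := m * (r - 1) + 1

/-- the block of a class in a plane -/
def bs (c : Fin r × Fin r) (j : Fin m) : Fin (SS m r) :=
  ⟨(c.1 : ℕ) + j * c.2, by
    have h1 : (c.1 : ℕ) ≤ r - 1 := by have := c.1.2; omega
    have h2 : (c.2 : ℕ) ≤ r - 1 := by have := c.2.2; omega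
    have h3 : (j : ℕ) + 1 ≤ m := j.2
    have h4 : (j : ℕ) * c.2 ≤ j * (r - 1) := Nat.mul_le_mul_left _ h2
    have h5 : (j : ℕ) * (r - 1) + (r - 1) ≤ m * (r - 1) := by
      calc (j : ℕ) * (r - 1) + (r - 1) = ((j : ℕ) + 1) * (r - 1) := by ring
        _ ≤ m * (r - 1) := Nat.mul_le_mul_right _ h3
    unfold SS
    omega⟩

lemma bs_inj {c c' : Fin r × Fin r} (hc : c ≠ c') {j j' : Fin m} (hj : j ≠ j')
    (h : bs c j = bs c' j) : bs c j' ≠ bs c' j' := by
  intro h'
  have h1 : (c.1 : ℕ) + j * c.2 = c'.1 + j * c'.2 := congrArg Fin.val h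
  have h2 : (c.1 : ℕ) + j' * c.2 = c'.1 + j' * c'.2 := congrArg Fin.val h'
  have hj' : ((j : ℕ) : ℤ) - (j' : ℕ) ≠ 0 := by
    intro h3
    apply hj
    apply Fin.ext
    omega
  have h3 : (((j : ℕ) : ℤ) - (j' : ℕ)) * (((c.2 : ℕ) : ℤ) - (c'.2 : ℕ)) = 0 := by
    have h1' : ((c.1 : ℕ) : ℤ) + (j : ℕ) * (c.2 : ℕ) = (c'.1 : ℕ) + (j : ℕ) * (c'.2 : ℕ) := by
      exact_mod_cast h1
    have h2' : ((c.1 : ℕ) : ℤ) + (j' : ℕ) * (c.2 : ℕ) = (c'.1 : ℕ) + (j' : ℕ) * (c'.2 : ℕ) := by
      exact_mod_cast h2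
    linear_combination h1' - h2'
  have h4 := (mul_eq_zero.1 h3).resolve_left hj'
  have h5 : c.2 = c'.2 := Fin.ext (by omega)
  rw [h5] at h1
  have h6 : c.1 = c'.1 := Fin.ext (by omega)
  exact hc (Prod.ext h6 h5)

/-- indices of new vertices -/
abbrev NN (r k : ℕ) := (Fin r × Fin r) × Fin k

/-- codes -/
abbrev GG (m o r k B : ℕ) (j0 : Fin m) :=
  ((Fin r × Fin r) → {j : Fin m // j ≠ j0} → Equiv.Perm (Fin k)) ×
  (NN r k → (a : (Fin m × Bool) ⊕ Fin o) → ({j' : Fin m // j' ≠ plA j0 a} → Fin B))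

section

variable {j0 : Fin m} (hB : 1 ≤ B)

/-- the permutations, extended by the identity -/
def pm (γ : GG m o r k B j0) (c : Fin r × Fin r) (j : Fin m) : Equiv.Perm (Fin k) :=
  if h : j ≠ j0 then γ.1 c ⟨j, h⟩ else 1

/-- the thresholds, extended by zero -/
def TT (γ : GG m o r k B j0) (n : NN r k) (a : (Fin m × Bool) ⊕ Fin o) (j' : Fin m) : Fin B :=
  if h : j' ≠ plA j0 a then γ.2 n a ⟨j', h⟩ else ⟨0, hB⟩

/-- the data of a new vertex -/
def pd (γ : GG m o r k B j0) (n : NN r k) : PD m o (SS m r) k B where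
  s := bs n.1
  i := fun j => pm γ n.1 j n.2
  T := TT hB γ n

/-- group tests -/
def gt (c : Fin r × Fin r) (a : (Fin m × Bool) ⊕ Fin o) (j0 : Fin m) (i : Fin k)
    (τ : Fin m → Fin B) (j : Fin m) : KK (SS m r) k B :=
  if j = plA j0 a then (bs c j, .inl (i, clA a)) else (bs c j, .inr (τ j))

/-- pairing tests -/
def ptst (c : Fin r × Fin r) (j0 j : Fin m) (i0 ij : Fin k) (tmax : Fin B) (j' : Fin m) :
    KK (SS m r) k B :=
  if j' = j0 then (bs c j', .inl (i0, false))
  else if j' = j then (bs c j', .inl (ij, false)) else (bs c j', .inr tmax)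

lemma pm_j0 (γ : GG m o r k B j0) (c : Fin r × Fin r) : pm γ c j0 = 1 := by
  simp [pm]

/-- group tests are negative except possibly at one vertex -/
lemma group_other (hm2 : 2 ≤ m) (γ : GG m o r k B j0) (c : Fin r × Fin r)
    (a : (Fin m × Bool) ⊕ Fin o) (i : Fin k) (τ : Fin m → Fin B) (n' : NN r k)
    (h : ¬ (n'.1 = c ∧ pm γ c (plA j0 a) n'.2 = i)) :
    (pd hB γ n').Qv j0 (gt c a j0 i τ) (eoA a) < 0 := by
  have hm : 1 ≤ m := by omega
  by_cases hhit : nn (gt c a j0 i τ (plA j0 a)) = (pd hB γ n').nj (plA j0 a)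
  · obtain ⟨l, hl⟩ := ((pd hB γ n').hit_iff (plA j0 a) _).1 hhit
    have hg : gt c a j0 i τ (plA j0 a) = (bs c (plA j0 a), .inl (i, clA a)) := by
      simp [gt]
    have hl' := hl
    rw [hg] at hl'
    simp only [pd, Prod.mk.injEq, Sum.inl.injEq] at hl'
    obtain ⟨h1, h2, h3⟩ := hl'
    have hc : n'.1 ≠ c := by
      intro hc
      apply h
      refine ⟨hc, ?_⟩
      rw [h2, hc]
    refine (pd hB γ n').Qv_other hm hB hm2 j0 a _ ?_ ?_
    · rw [hl, h3]
    · intro j' hj'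
      have h4 : (gt c a j0 i τ j').1 = bs c j' := by
        unfold gt
        split_ifs <;> rfl
      rw [h4]
      exact bs_inj hc.symm hj'.symm h1
  · apply (pd hB γ n').Qv_nohit hm hB j0 a
    intro j
    by_cases hj : j = plA j0 a
    · rw [hj]; exact hhit
    · intro h1
      obtain ⟨l, hl⟩ := ((pd hB γ n').hit_iff j _).1 h1
      simp [gt, hj] at hl

/-- the group test at its own vertex and own codes -/
lemma group_own (hm : 1 ≤ m) (γ : GG m o r k B j0) (n : NN r k)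
    (a : (Fin m × Bool) ⊕ Fin o) :
    0 < (pd hB γ n).Qv j0 (gt n.1 a j0 (pm γ n.1 (plA j0 a) n.2) (TT hB γ n a)) (eoA a) := by
  rw [(pd hB γ n).Qv_own hm hB j0 a]
  · exact dl_pos hm hB
  · simp [gt, pd]
  · intro j' hj'
    simp [gt, pd, hj']

/-- values of the pairing tests -/
lemma pair_cases (hm2 : 2 ≤ m) (γ : GG m o r k B j0) (c : Fin r × Fin r) (j : Fin m)
    (hj : j ≠ j0) (i0 ij : Fin k) (tmax : Fin B) (hmax : ∀ t : Fin B, t ≤ tmax)
    (n' : NN r k) :
    (pd hB γ n').Qv j0 (ptst c j0 j i0 ij tmax) (fun _ => true) ≠ 0 ∧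
    (0 < (pd hB γ n').Qv j0 (ptst c j0 j i0 ij tmax) (fun _ => true) ↔
      n'.1 = c ∧ ((n'.2 = i0 ∧ ij ≤ pm γ c j i0) ∨ (pm γ c j n'.2 = ij ∧ i0 ≤ n'.2))) := by
  have hm : 1 ≤ m := by omega
  have he : ∀ j1 : Fin m, (fun _ : Fin o => true) = eoA (.inl (j1, false)) := fun _ => rfl
  have hneg : (pd hB γ n').Qv j0 (ptst c j0 j i0 ij tmax) (fun _ => true) < 0 →
      ¬ (n'.1 = c ∧ ((n'.2 = i0 ∧ ij ≤ pm γ c j i0) ∨ (pm γ c j n'.2 = ij ∧ i0 ≤ n'.2))) →
      ((pd hB γ n').Qv j0 (ptst c j0 j i0 ij tmax) (fun _ => true) ≠ 0 ∧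
      (0 < (pd hB γ n').Qv j0 (ptst c j0 j i0 ij tmax) (fun _ => true) ↔
      n'.1 = c ∧ ((n'.2 = i0 ∧ ij ≤ pm γ c j i0) ∨ (pm γ c j n'.2 = ij ∧ i0 ≤ n'.2)))) :=
    fun h1 h2 => ⟨h1.ne, fun h3 => absurd h3 (not_lt.2 h1.le), fun h3 => absurd h3 h2⟩
  have hpos : 0 < (pd hB γ n').Qv j0 (ptst c j0 j i0 ij tmax) (fun _ => true) →
      (n'.1 = c ∧ ((n'.2 = i0 ∧ ij ≤ pm γ c j i0) ∨ (pm γ c j n'.2 = ij ∧ i0 ≤ n'.2))) →
      ((pd hB γ n').Qv j0 (ptst c j0 j i0 ij tmax) (fun _ => true) ≠ 0 ∧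
      (0 < (pd hB γ n').Qv j0 (ptst c j0 j i0 ij tmax) (fun _ => true) ↔
      n'.1 = c ∧ ((n'.2 = i0 ∧ ij ≤ pm γ c j i0) ∨ (pm γ c j n'.2 = ij ∧ i0 ≤ n'.2)))) :=
    fun h1 h2 => ⟨h1.ne', fun _ => h2, fun _ => h1⟩
  have ht0 : ptst c j0 j i0 ij tmax j0 = (bs c j0, .inl (i0, false)) := by simp [ptst]
  have htj : ptst c j0 j i0 ij tmax j = (bs c j, .inl (ij, false)) := by simp [ptst, hj]
  have hto : ∀ j', j' ≠ j0 → j' ≠ j → ptst c j0 j i0 ij tmax j' = (bs c j', .inr tmax) := by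
    intro j' h1 h2
    simp [ptst, h1, h2]
  have hblk : ∀ j', (ptst c j0 j i0 ij tmax j').1 = bs c j' := by
    intro j'
    unfold ptst
    split_ifs <;> rfl
  have hcode : ∀ j', j' ≠ j0 → j' ≠ j → nn (ptst c j0 j i0 ij tmax j') ≠ (pd hB γ n').nj j' := by
    intro j' h1 h2 h3
    obtain ⟨l, hl⟩ := ((pd hB γ n').hit_iff j' _).1 h3
    rw [hto j' h1 h2] at hl
    simp at hl
  by_cases hc : n'.1 = c
  · -- same class
    have hs : ∀ j', (pd hB γ n').s j' = bs c j' := by
      intro j'; simp only [pd, hc]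
    have hi : ∀ j', (pd hB γ n').i j' = pm γ c j' n'.2 := by
      intro j'; simp only [pd, hc]
    have hi0 : (pd hB γ n').i j0 = n'.2 := by rw [hi, pm_j0]; rfl
    have hnj0 : (pd hB γ n').nj j0 = (k + 1) * (bs c j0 : ℕ) + ((n'.2 : ℕ) + 1) := by
      unfold PD.nj; rw [hs, hi0]
    have hnjj : (pd hB γ n').nj j = (k + 1) * (bs c j : ℕ) + ((pm γ c j n'.2 : ℕ) + 1) := by
      unfold PD.nj; rw [hs, hi]
    have hn0 : nn (ptst c j0 j i0 ij tmax j0) = (k + 1) * (bs c j0 : ℕ) + ((i0 : ℕ) + 1) := by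
      rw [ht0, nn_slot]
    have hnj : nn (ptst c j0 j i0 ij tmax j) = (k + 1) * (bs c j : ℕ) + ((ij : ℕ) + 1) := by
      rw [htj, nn_slot]
    by_cases hq : n'.2 = i0
    · by_cases hle : ij ≤ pm γ c j i0
      · apply hpos
        · rw [he j0]
          refine (pd hB γ n').Qv_pair_vis hm hB j0 _ j0 j ?_ ij ?_ ?_ tmax hmax ?_
          · rw [ht0, hs, hi0, hq]
          · rw [hi, hq]; exact hle
          · rw [htj, hs]
          · intro j' h1 h2
            rw [hto j' h1 h2, hs]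
        · exact ⟨hc, Or.inl ⟨hq, hle⟩⟩
      · apply hneg
        · rw [he j0]
          have hlt : (pm γ c j n'.2 : ℕ) < ij := by
            rw [hq]; exact not_le.1 hle
          refine (pd hB γ n').Qv_pair_inv hm hB j0 _ j0 j hj ?_ ?_ ?_
          · rw [ht0, hs, hi0, hq]
          · rw [hnj, hnjj]; omega
          · intro j' h1
            by_cases h2 : j' = j
            · rw [h2, hnj, hnjj]; omega
            · exact hcode j' h1 h2
        · rintro ⟨-, ⟨-, h2⟩ | ⟨h2, -⟩⟩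
          · exact hle h2
          · apply hle
            rw [← h2, hq]
    · by_cases hp : pm γ c j n'.2 = ij
      · by_cases hle : i0 ≤ n'.2
        · apply hpos
          · rw [he j]
            refine (pd hB γ n').Qv_pair_vis hm hB j0 _ j j0 ?_ i0 ?_ ?_ tmax hmax ?_
            · rw [htj, hs, hi, hp]
            · rw [hi0]; exact hle
            · rw [ht0, hs]
            · intro j' h1 h2
              rw [hto j' h2 h1, hs]
          · exact ⟨hc, Or.inr ⟨hp, hle⟩⟩
        · apply hneg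
          · rw [he j]
            have hlt : (n'.2 : ℕ) < i0 := not_le.1 hle
            refine (pd hB γ n').Qv_pair_inv hm hB j0 _ j j0 hj.symm ?_ ?_ ?_
            · rw [htj, hs, hi, hp]
            · rw [hn0, hnj0]; omega
            · intro j' h1
              by_cases h2 : j' = j0
              · rw [h2, hn0, hnj0]; omega
              · exact hcode j' h2 h1
          · rintro ⟨-, ⟨h2, -⟩ | ⟨-, h2⟩⟩
            · exact hq h2
            · exact hle h2
      · apply hneg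
        · rw [he j]
          apply (pd hB γ n').Qv_nohit hm hB j0
          intro j'
          by_cases h1 : j' = j0
          · rw [h1, hn0, hnj0]
            intro h2
            exact hq (Fin.ext (by omega))
          · by_cases h2 : j' = j
            · rw [h2, hnj, hnjj]
              intro h3
              exact hp (Fin.ext (by omega))
            · exact hcode j' h1 h2
        · rintro ⟨-, ⟨h2, -⟩ | ⟨h2, -⟩⟩
          · exact hq h2
          · exact hp h2
  · -- other classes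
    apply hneg
    · have hsne : ∀ j1, bs c j1 = bs n'.1 j1 → ∀ j', j' ≠ j1 →
          (ptst c j0 j i0 ij tmax j').1 ≠ (pd hB γ n').s j' := by
        intro j1 h1 j' hj'
        rw [hblk]
        exact bs_inj (fun h => hc h.symm) hj'.symm h1
      by_cases h0 : nn (ptst c j0 j i0 ij tmax j0) = (pd hB γ n').nj j0
      · obtain ⟨l, hl⟩ := ((pd hB γ n').hit_iff j0 _).1 h0
        have hl' := hl
        rw [ht0] at hl'
        simp only [pd, Prod.mk.injEq, Sum.inl.injEq] at hl'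
        obtain ⟨h1, h2, h3⟩ := hl'
        rw [he j0]
        refine (pd hB γ n').Qv_other hm hB hm2 j0 (.inl (j0, false)) _ ?_ (hsne j0 h1)
        show ptst c j0 j i0 ij tmax j0 = ((pd hB γ n').s j0, .inl ((pd hB γ n').i j0, false))
        rw [hl, ← h3]
      · by_cases h1 : nn (ptst c j0 j i0 ij tmax j) = (pd hB γ n').nj j
        · obtain ⟨l, hl⟩ := ((pd hB γ n').hit_iff j _).1 h1
          have hl' := hl
          rw [htj] at hl'
          simp only [pd, Prod.mk.injEq, Sum.inl.injEq] at hl'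
          obtain ⟨h1, h2, h3⟩ := hl'
          rw [he j]
          refine (pd hB γ n').Qv_other hm hB hm2 j0 (.inl (j, false)) _ ?_ (hsne j h1)
          show ptst c j0 j i0 ij tmax j = ((pd hB γ n').s j, .inl ((pd hB γ n').i j, false))
          rw [hl, ← h3]
        · rw [he j]
          apply (pd hB γ n').Qv_nohit hm hB j0
          intro j'
          by_cases h2 : j' = j0
          · rw [h2]; exact h0
          · by_cases h3 : j' = j
            · rw [h3]; exact h1
            · exact hcode j' h2 h3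
    · rintro ⟨h1, -⟩
      exact hc h1

/-- the pairing test determines the pattern -/
lemma pair_exists (hm2 : 2 ≤ m) (γ : GG m o r k B j0) (c : Fin r × Fin r) (j : Fin m)
    (hj : j ≠ j0) (i0 ij : Fin k) (tmax : Fin B) (hmax : ∀ t : Fin B, t ≤ tmax) :
    (∃ n', 0 < (pd hB γ n').Qv j0 (ptst c j0 j i0 ij tmax) (fun _ => true)) ↔
      (ij ≤ pm γ c j i0 ∨ i0 ≤ (pm γ c j).symm ij) := by
  constructor
  · rintro ⟨n', hn'⟩
    obtain ⟨-, h | h⟩ := (pair_cases hB hm2 γ c j hj i0 ij tmax hmax n').2.1 hn'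
    · exact Or.inl h.2
    · right
      rw [← h.1, Equiv.symm_apply_apply]
      exact h.2
  · rintro (h | h)
    · exact ⟨(c, i0), (pair_cases hB hm2 γ c j hj i0 ij tmax hmax (c, i0)).2.2
        ⟨rfl, Or.inl ⟨rfl, h⟩⟩⟩
    · exact ⟨(c, (pm γ c j).symm ij), (pair_cases hB hm2 γ c j hj i0 ij tmax hmax _).2.2
        ⟨rfl, Or.inr ⟨by simp, h⟩⟩⟩

/-- separation by thresholds -/
lemma sep_aux (hm2 : 2 ≤ m) (γ γ' : GG m o r k B j0) (h1 : γ.1 = γ'.1) (n : NN r k)
    (a : (Fin m × Bool) ⊕ Fin o) (js : Fin m) (hjs : js ≠ plA j0 a)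
    (hlt : TT hB γ n a js < TT hB γ' n a js)
    (heq : ∀ j', j' ≠ plA j0 a → j' < js → TT hB γ n a j' = TT hB γ' n a j') :
    ∃ (t : Fin m → KK (SS m r) k B) (e : Fin o → Bool),
      (∃ n', 0 < (pd hB γ n').Qv j0 t e) ∧ (∀ n', (pd hB γ n').Qv j0 t e ≠ 0) ∧
      ∀ n', (pd hB γ' n').Qv j0 t e < 0 := by
  have hm : 1 ≤ m := by omega
  have hpm : ∀ c j, pm γ c j = pm γ' c j := by
    intro c j
    unfold pm
    rw [h1]
  refine ⟨gt n.1 a j0 (pm γ n.1 (plA j0 a) n.2) (TT hB γ n a), eoA a, ⟨n, group_own hB hm γ n a⟩,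
    ?_, ?_⟩
  · intro n'
    by_cases hn : n' = n
    · rw [hn]; exact (group_own hB hm γ n a).ne'
    · refine (group_other hB hm2 γ n.1 a _ _ n' ?_).ne
      rintro ⟨h2, h3⟩
      exact hn (Prod.ext h2 ((pm γ n.1 (plA j0 a)).injective h3))
  · intro n'
    by_cases hn : n' = n
    · rw [hn]
      refine (pd hB γ' n).Qv_lex hm hB j0 a _ (TT hB γ n a) ?_ ?_ js hjs ?_ ?_
      · simp [gt, pd, hpm]
      · intro j' hj'
        simp [gt, pd, hj']
      · exact hlt
      · exact heq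
    · refine group_other hB hm2 γ' n.1 a _ _ n' ?_
      rintro ⟨h2, h3⟩
      rw [hpm] at h3
      exact hn (Prod.ext h2 ((pm γ' n.1 (plA j0 a)).injective h3))

end

theorem construct2 : Construct2 := by
  intro m o r k B F hm2 ho hr hk hB
  classical
  have hm : 1 ≤ m := by omega
  let j0 : Fin m := ⟨0, hm⟩
  let tmax : Fin B := ⟨B - 1, by omega⟩
  have hmax : ∀ t : Fin B, t ≤ tmax := by
    intro t
    show (t : ℕ) ≤ B - 1
    have := t.2
    omega
  have : Nontrivial (KK (SS m r) k B) := by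
    have hS : 0 < SS m r := by unfold SS; omega
    refine ⟨⟨(⟨0, hS⟩, .inl (⟨0, hk⟩, true)), (⟨0, hS⟩, .inl (⟨0, hk⟩, false)), ?_⟩⟩
    simp
  have h := assemble (F := F) (Γ := GG m o r k B j0) (N := NN r k) hm
    (par m (S := SS m r) (k := k) (B := B) F)
    (fun j p => par_lt hm hB j p) (fun j => par_inj hm hB j)
    (fun γ n => (pd hB γ n).pt j0)
    (fun γ n j σ => (pd hB γ n).dot_lt hm hB hm2 ho j0 j σ)
    (fun γ n i => (pd hB γ n).z_lt hm hB ho j0 i)
    (fun γ n => by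
      refine ⟨gt n.1 (.inl (j0, false) : (Fin m × Bool) ⊕ Fin o) j0 (pm γ n.1 j0 n.2)
        (TT hB γ n (.inl (j0, false))),
        eoA (.inl (j0, false)), ?_, ?_⟩
      · rw [(pd hB γ n).Lt_gt_iff hm hB ho]
        exact group_own hB hm γ n (.inl (j0, false))
      · intro n' hn'
        rw [(pd hB γ n').Lt_lt_iff hm hB ho]
        refine group_other hB hm2 γ n.1 (.inl (j0, false)) _ _ n' ?_
        rintro ⟨h2, h3⟩
        exact hn' (Prod.ext h2 ((pm γ n.1 j0).injective h3)))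
    (fun γ γ' hne => by
      have hne1 : ∀ (γ : GG m o r k B j0) t e n, (pd hB γ n).Qv j0 t e ≠ 0 →
          Lt (par m F) t e ((pd hB γ n).pt j0) ≠ 1 := by
        intro γ t e n h1 h2
        rw [(pd hB γ n).Lt_pt hm hB ho] at h2
        have h3 : (pd hB γ n).mu j0 * (pd hB γ n).Qv j0 t e = 0 := by linarith
        rcases mul_eq_zero.1 h3 with h4 | h4
        · exact absurd h4 ((pd hB γ n).mu_pos hm hB ho j0).ne'
        · exact h1 h4
      by_cases h1 : γ.1 = γ'.1
      · have h2 : γ.2 ≠ γ'.2 := fun h2 => hne (Prod.ext h1 h2)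
        obtain ⟨n, hn⟩ := Function.ne_iff.1 h2
        obtain ⟨a, ha⟩ := Function.ne_iff.1 hn
        obtain ⟨j1, hj1⟩ := Function.ne_iff.1 ha
        have hTT : TT hB γ n a j1.1 ≠ TT hB γ' n a j1.1 := by
          simp only [TT, dif_pos j1.2]
          exact hj1
        -- first difference
        let D : Finset (Fin m) := univ.filter fun j => j ≠ plA j0 a ∧
          TT hB γ n a j ≠ TT hB γ' n a j
        have hD : D.Nonempty := ⟨j1.1, mem_filter.2 ⟨mem_univ _, j1.2, hTT⟩⟩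
        have hmem := D.min'_mem hD
        have hmin : ∀ j', j' ≠ plA j0 a → j' < D.min' hD → TT hB γ n a j' = TT hB γ' n a j' := by
          intro j' h3 h4
          by_contra h5
          have := D.min'_le j' (mem_filter.2 ⟨mem_univ _, h3, h5⟩)
          exact absurd h4 (not_lt.2 this)
        obtain ⟨-, hjs, hdiff⟩ := mem_filter.1 hmem
        rcases lt_or_gt_of_ne hdiff with hlt | hlt
        · obtain ⟨t, e, hv, hz, hi⟩ := sep_aux hB hm2 γ γ' h1 n a _ hjs hlt hmin
          refine ⟨t, e, fun n => hne1 γ t e n (hz n), fun n => hne1 γ' t e n (hi n).ne, ?_⟩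
          intro hiff
          obtain ⟨n', hn'⟩ := hv
          obtain ⟨n2, hn2⟩ := hiff.1 ⟨n', ((pd hB γ n').Lt_gt_iff hm hB ho j0 t e).2 hn'⟩
          rw [(pd hB γ' n2).Lt_gt_iff hm hB ho] at hn2
          exact absurd hn2 (not_lt.2 (hi n2).le)
        · obtain ⟨t, e, hv, hz, hi⟩ := sep_aux hB hm2 γ' γ h1.symm n a _ hjs hlt
            (fun j' h3 h4 => (hmin j' h3 h4).symm)
          refine ⟨t, e, fun n => hne1 γ t e n (hi n).ne, fun n => hne1 γ' t e n (hz n), ?_⟩
          intro hiff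
          obtain ⟨n', hn'⟩ := hv
          obtain ⟨n2, hn2⟩ := hiff.2 ⟨n', ((pd hB γ' n').Lt_gt_iff hm hB ho j0 t e).2 hn'⟩
          rw [(pd hB γ n2).Lt_gt_iff hm hB ho] at hn2
          exact absurd hn2 (not_lt.2 (hi n2).le)
      · obtain ⟨c, hc⟩ := Function.ne_iff.1 h1
        obtain ⟨j, hj⟩ := Function.ne_iff.1 hc
        have hp : pm γ c j.1 ≠ pm γ' c j.1 := by
          simp only [pm, dif_pos j.2]
          exact hj
        have h3 : ¬ ∀ a b : Fin k, (b ≤ pm γ c j.1 a ∨ a ≤ (pm γ c j.1).symm b) ↔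
            (b ≤ pm γ' c j.1 a ∨ a ≤ (pm γ' c j.1).symm b) := fun h3 => hp (rothe h3)
        push Not at h3
        obtain ⟨i0, ij, h4⟩ := h3
        refine ⟨ptst c j0 j.1 i0 ij tmax, fun _ => true,
          fun n => hne1 γ _ _ n (pair_cases hB hm2 γ c j.1 j.2 i0 ij tmax hmax n).1,
          fun n => hne1 γ' _ _ n (pair_cases hB hm2 γ' c j.1 j.2 i0 ij tmax hmax n).1, ?_⟩
        have h5 := pair_exists hB hm2 γ c j.1 j.2 i0 ij tmax hmax
        have h6 := pair_exists hB hm2 γ' c j.1 j.2 i0 ij tmax hmax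
        have h7 : (∃ n, 1 < Lt (par m F) (ptst c j0 j.1 i0 ij tmax) (fun _ => true)
            ((pd hB γ n).pt j0)) ↔ (ij ≤ pm γ c j.1 i0 ∨ i0 ≤ (pm γ c j.1).symm ij) := by
          rw [← h5]
          exact exists_congr fun n => (pd hB γ n).Lt_gt_iff hm hB ho j0 _ _
        have h8 : (∃ n, 1 < Lt (par m F) (ptst c j0 j.1 i0 ij tmax) (fun _ => true)
            ((pd hB γ' n).pt j0)) ↔ (ij ≤ pm γ' c j.1 i0 ∨ i0 ≤ (pm γ' c j.1).symm ij) := by
          rw [← h6]
          exact exists_congr fun n => (pd hB γ' n).Lt_gt_iff hm hB ho j0 _ _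
        rw [h7, h8]
        intro hiff
        rcases h4 with h4 | h4
        · exact absurd (hiff.1 h4.1) (by push Not; exact h4.2)
        · exact absurd (hiff.2 h4.2) (by push Not; exact h4.1))
  have hcK : Fintype.card (KK (SS m r) k B) = (m * (r - 1) + 1) * (2 * k + B) := by
    simp only [KK, SS, Fintype.card_prod, Fintype.card_sum, Fintype.card_fin, Fintype.card_bool]
    ring
  have hcN : Fintype.card (NN r k) = r * r * k := by
    simp only [NN, Fintype.card_prod, Fintype.card_fin]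
  have hsub : ∀ j : Fin m, Fintype.card {j' : Fin m // j' ≠ j} = m - 1 := by
    intro j
    rw [Fintype.card_subtype_compl, Fintype.card_fin]
    simp
  have hcG : Fintype.card (GG m o r k B j0) =
      (k.factorial ^ ((m - 1) * (r * r))) * (B ^ (m - 1)) ^ ((2 * m + o) * (r * r * k)) := by
    have h1 : Fintype.card ((Fin r × Fin r) → {j : Fin m // j ≠ j0} → Equiv.Perm (Fin k)) =
        k.factorial ^ ((m - 1) * (r * r)) := by
      rw [Fintype.card_fun, Fintype.card_fun, Fintype.card_perm, hsub, Fintype.card_prod,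
        Fintype.card_fin, Fintype.card_fin, ← pow_mul]
    have h2 : Fintype.card (NN r k → (a : (Fin m × Bool) ⊕ Fin o) →
        ({j' : Fin m // j' ≠ plA j0 a} → Fin B)) =
        (B ^ (m - 1)) ^ ((2 * m + o) * (r * r * k)) := by
      rw [Fintype.card_fun, Fintype.card_pi]
      have h3 : ∀ a : (Fin m × Bool) ⊕ Fin o,
          Fintype.card ({j' : Fin m // j' ≠ plA j0 a} → Fin B) = B ^ (m - 1) := by
        intro a
        rw [Fintype.card_fun, hsub, Fintype.card_fin]
      rw [prod_congr rfl fun a _ => h3 a, prod_const, card_univ, Fintype.card_sum,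
        Fintype.card_prod, Fintype.card_fin, Fintype.card_fin, Fintype.card_bool, hcN,
        ← pow_mul, mul_comm m 2]
    rw [Fintype.card_prod, h1, h2]
  rw [hcK, hcN, hcG] at h
  exact h

end Pool.Agent.H4.Pol2
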