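import Pool.Agent.H4.Pol2.Sys

/-! The parameters of the second construction. -/

namespace Pool.Agent.H4.Pol2

/-- the ratio of consecutive scales -/
noncomputable def Lm (m : ℕ) : ℝ := 64 * m

/-- the code scales -/
noncomputable def ze (m k B : ℕ) (j : ℕ) : ℝ :=
  (1 / (8 * B)) * (1 / (16 * m * B * Lm m ^ k)) ^ j

/-- the gap -/
noncomputable def dl (m k B : ℕ) : ℝ := ze m k B m / Lm m ^ k

/-- parameter indices: blocks, and in each block `k` pairs of slots and `B` codes -/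
abbrev KK (S k B : ℕ) := Fin S × ((Fin k × Bool) ⊕ Fin B)

variable {m S k B : ℕ}

/-- the scale exponent of a parameter -/
def nn (κ : KK S k B) : ℕ :=
  (k + 1) * κ.1 + Sum.elim (fun p : Fin k × Bool => (p.1 : ℕ) + 1) (fun _ : Fin B => 0) κ.2

/-- the factor of a parameter -/
noncomputable def ww (m : ℕ) (j : ℕ) (κ : KK S k B) : ℝ :=
  Sum.elim (fun p : Fin k × Bool => if p.2 then 2 else 1)
    (fun t : Fin B => 1 + ze m k B j * ((t : ℕ) : ℝ)) κ.2

/-- the unit -/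
noncomputable def uu (m S k : ℕ) : ℝ := 1 / Lm m ^ ((k + 1) * S)

/-- the parameters -/
noncomputable def par0 (m : ℕ) (j : ℕ) (κ : KK S k B) : ℝ := uu m S k * Lm m ^ nn κ * ww m j κ

section

variable (hm : 1 ≤ m) (hB : 1 ≤ B)

include hm

lemma Lm_ge : 64 ≤ Lm m := by
  unfold Lm
  have : (1 : ℝ) ≤ m := by exact_mod_cast hm
  linarith

lemma Lm_pos : 0 < Lm m := by linarith [Lm_ge hm]

lemma Lm_pow_pos (n : ℕ) : 0 < Lm m ^ n := pow_pos (Lm_pos hm) n

lemma Lm_pow_ge (n : ℕ) : 1 ≤ Lm m ^ n := one_le_pow₀ (by linarith [Lm_ge hm])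

lemma Lm_pow_lt {n n' : ℕ} (h : n < n') : Lm m ^ n * Lm m ≤ Lm m ^ n' := by
  rw [← pow_succ]
  exact pow_le_pow_right₀ (by linarith [Lm_ge hm]) h

lemma uu_pos : 0 < uu m S k := by
  unfold uu
  have := Lm_pow_pos hm ((k + 1) * S)
  positivity

include hB

lemma ze_pos (j : ℕ) : 0 < ze m k B j := by
  unfold ze
  have := Lm_pow_pos hm k
  have h1 : (1 : ℝ) ≤ B := by exact_mod_cast hB
  have h2 : (1 : ℝ) ≤ m := by exact_mod_cast hm
  positivity

/-- decay of the code scales -/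
lemma ze_lt {j j' : ℕ} (h : j < j') : ze m k B j' * (16 * m * B * Lm m ^ k) ≤ ze m k B j := by
  have h0 := Lm_pow_pos hm k
  have h0' := Lm_pow_ge hm k
  have h1 : (1 : ℝ) ≤ B := by exact_mod_cast hB
  have h2 : (1 : ℝ) ≤ m := by exact_mod_cast hm
  set ρ : ℝ := 1 / (16 * m * B * Lm m ^ k) with hρ
  have hD : (1 : ℝ) ≤ 16 * m * B * Lm m ^ k := by
    have h3 : (1 : ℝ) ≤ m * B := one_le_mul_of_one_le_of_one_le h2 h1
    have h4 : (1 : ℝ) ≤ m * B * Lm m ^ k := one_le_mul_of_one_le_of_one_le h3 h0'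
    nlinarith
  have hρ1 : ρ ≤ 1 := by
    rw [hρ, div_le_one (by linarith)]
    exact hD
  have hρ0 : 0 < ρ := by rw [hρ]; positivity
  have h5 : ρ ^ j' ≤ ρ ^ (j + 1) := pow_le_pow_of_le_one hρ0.le hρ1 h
  unfold ze
  rw [← hρ]
  have h6 : ρ * (16 * m * B * Lm m ^ k) = 1 := by
    rw [hρ]
    field_simp
  have h7 : ρ ^ (j + 1) * (16 * m * B * Lm m ^ k) = ρ ^ j := by
    rw [pow_succ, mul_assoc, h6, mul_one]
  have h8 : ρ ^ j' * (16 * m * B * Lm m ^ k) ≤ ρ ^ j := by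
    rw [← h7]
    exact mul_le_mul_of_nonneg_right h5 (by linarith)
  have h9 : 0 ≤ 1 / (8 * (B : ℝ)) := by positivity
  calc 1 / (8 * (B : ℝ)) * ρ ^ j' * (16 * m * B * Lm m ^ k)
      = 1 / (8 * (B : ℝ)) * (ρ ^ j' * (16 * m * B * Lm m ^ k)) := by ring
    _ ≤ 1 / (8 * (B : ℝ)) * ρ ^ j := mul_le_mul_of_nonneg_left h8 h9

lemma ze_mul_le (j : ℕ) : ze m k B j * B ≤ 1 / 8 := by
  have h1 : (1 : ℝ) ≤ B := by exact_mod_cast hB
  have h2 : ze m k B 0 * B = 1 / 8 := by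
    unfold ze
    field_simp
  rcases Nat.eq_zero_or_pos j with h | h
  · rw [h, h2]
  · have h3 := ze_lt (k := k) hm hB h
    have h0' := Lm_pow_ge hm k
    have h4 : (1 : ℝ) ≤ m := by exact_mod_cast hm
    have h5 := ze_pos (k := k) hm hB j
    have hD : (1 : ℝ) ≤ 16 * m * B * Lm m ^ k := by
      have h3 : (1 : ℝ) ≤ m * B := one_le_mul_of_one_le_of_one_le h4 h1
      have h4 : (1 : ℝ) ≤ m * B * Lm m ^ k := one_le_mul_of_one_le_of_one_le h3 h0'
      nlinarith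
    have h6 : ze m k B j ≤ ze m k B 0 := by nlinarith
    have h7 : ze m k B j * B ≤ ze m k B 0 * B := mul_le_mul_of_nonneg_right h6 (by linarith)
    linarith

lemma dl_pos : 0 < dl m k B := div_pos (ze_pos hm hB m) (Lm_pow_pos hm k)

lemma dl_le : dl m k B * Lm m ^ k ≤ 1 / 128 := by
  unfold dl
  rw [div_mul_cancel₀ _ (Lm_pow_pos hm k).ne']
  have h1 : (1 : ℝ) ≤ B := by exact_mod_cast hB
  have h2 : (1 : ℝ) ≤ m := by exact_mod_cast hm
  have h3 := ze_lt (k := k) hm hB (j := 0) (j' := m) (by omega)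
  have h4 := ze_mul_le (k := k) hm hB 0
  have h5 := ze_pos (k := k) hm hB m
  have h6 := Lm_pow_ge hm k
  have h8 : (16 : ℝ) ≤ 16 * m * B * Lm m ^ k := by
    have h3 : (1 : ℝ) ≤ m * B := one_le_mul_of_one_le_of_one_le h2 h1
    have h4 : (1 : ℝ) ≤ m * B * Lm m ^ k := one_le_mul_of_one_le_of_one_le h3 h6
    nlinarith
  have h9 : ze m k B m * 16 ≤ ze m k B 0 :=
    le_trans (mul_le_mul_of_nonneg_left h8 h5.le) h3
  have h10 := ze_pos (k := k) hm hB 0
  have h11 : ze m k B 0 ≤ 1 / 8 := by nlinarith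
  linarith

lemma dl_le' : dl m k B ≤ 1 / 100 := by
  have h1 := dl_le (k := k) hm hB
  have h2 := Lm_pow_ge hm k
  have h3 := dl_pos (k := k) hm hB
  nlinarith

lemma ww_bounds (j : ℕ) (κ : KK S k B) : 1 ≤ ww m j κ ∧ ww m j κ ≤ 2 := by
  unfold ww
  rcases κ with ⟨s, ⟨i, l⟩ | t⟩
  · cases l <;> simp
  · simp only [Sum.elim_inr]
    have h1 := ze_pos (k := k) hm hB j
    have h2 : ((t : ℕ) : ℝ) ≤ B := by exact_mod_cast t.2.le
    have h3 : (0 : ℝ) ≤ ((t : ℕ) : ℝ) := Nat.cast_nonneg _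
    have h4 := ze_mul_le (k := k) hm hB j
    have h5 : ze m k B j * ((t : ℕ) : ℝ) ≤ ze m k B j * B := mul_le_mul_of_nonneg_left h2 h1.le
    have h6 := mul_nonneg h1.le h3
    constructor <;> linarith

lemma par0_pos (j : ℕ) (κ : KK S k B) : 0 < par0 m j κ := by
  unfold par0
  have h1 := ww_bounds hm hB j κ
  have h2 := Lm_pow_pos hm (nn κ)
  have h3 := uu_pos (S := S) (k := k) hm
  have : 0 < ww m j κ := by linarith
  positivity

omit hm hB in
lemma nn_lt (κ : KK S k B) : nn κ < (k + 1) * S := by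
  have h1 : nn κ < (k + 1) * κ.1 + (k + 1) := by
    unfold nn
    rcases κ with ⟨s, ⟨i, l⟩ | t⟩
    · simp only [Sum.elim_inl]; omega
    · simp only [Sum.elim_inr]; omega
  have h2 : (k + 1) * (κ.1 : ℕ) + (k + 1) ≤ (k + 1) * S := by
    have := κ.1.2
    calc (k + 1) * (κ.1 : ℕ) + (k + 1) = (k + 1) * ((κ.1 : ℕ) + 1) := by ring
      _ ≤ (k + 1) * S := Nat.mul_le_mul_left _ this
  omega

lemma par0_lt (j : ℕ) (κ : KK S k B) : par0 m j κ ≤ 1 / 32 := by
  have h1 := ww_bounds hm hB j κ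
  have h2 := Lm_pow_pos hm (nn κ)
  have h3 := Lm_pow_lt hm (nn_lt κ)
  have h4 := Lm_pow_pos hm ((k + 1) * S)
  have h5 := Lm_ge hm
  unfold par0 uu
  have h6 : Lm m ^ nn κ * 64 ≤ Lm m ^ ((k + 1) * S) :=
    le_trans (mul_le_mul_of_nonneg_left h5 h2.le) h3
  have h7 : 1 / Lm m ^ ((k + 1) * S) * Lm m ^ nn κ ≤ 1 / 64 := by
    rw [one_div, inv_mul_le_iff₀ h4]
    linarith
  have h8 : 0 ≤ 1 / Lm m ^ ((k + 1) * S) * Lm m ^ nn κ := by positivity
  nlinarith

omit hm hB in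
/-- decoding of the exponent -/
lemma nn_inj {κ κ' : KK S k B} (h : nn κ = nn κ') : κ.1 = κ'.1 ∧
    Sum.elim (fun p : Fin k × Bool => (p.1 : ℕ) + 1) (fun _ => 0) κ.2 =
    Sum.elim (fun p : Fin k × Bool => (p.1 : ℕ) + 1) (fun _ => 0) κ'.2 := by
  have hb : ∀ x : (Fin k × Bool) ⊕ Fin B,
      Sum.elim (fun p : Fin k × Bool => (p.1 : ℕ) + 1) (fun _ => 0) x < k + 1 := by
    rintro (⟨i, l⟩ | t)
    · simp only [Sum.elim_inl]; omega
    · simp only [Sum.elim_inr]; omega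
  have h1 := hb κ.2
  have h2 := hb κ'.2
  unfold nn at h
  set a := Sum.elim (fun p : Fin k × Bool => (p.1 : ℕ) + 1) (fun _ => 0) κ.2
  set a' := Sum.elim (fun p : Fin k × Bool => (p.1 : ℕ) + 1) (fun _ => 0) κ'.2
  have h3 : (κ.1 : ℕ) = κ'.1 := by
    rcases lt_trichotomy (κ.1 : ℕ) κ'.1 with h4 | h4 | h4
    · exfalso
      have : (k + 1) * ((κ.1 : ℕ) + 1) ≤ (k + 1) * κ'.1 := Nat.mul_le_mul_left _ h4
      rw [Nat.mul_add] at this
      omega
    · exact h4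
    · exfalso
      have : (k + 1) * ((κ'.1 : ℕ) + 1) ≤ (k + 1) * κ.1 := Nat.mul_le_mul_left _ h4
      rw [Nat.mul_add] at this
      omega
  rw [h3] at h
  exact ⟨Fin.ext h3, by omega⟩

lemma par0_inj (j : ℕ) : Function.Injective (par0 (S := S) (k := k) (B := B) m j) := by
  intro κ κ' h
  have h1 := ww_bounds hm hB j κ
  have h1' := ww_bounds hm hB j κ'
  have h2 := Lm_pow_pos hm (nn κ)
  have h2' := Lm_pow_pos hm (nn κ')
  have h3 := uu_pos (S := S) (k := k) hm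
  have h5 := Lm_ge hm
  unfold par0 at h
  rw [mul_assoc, mul_assoc] at h
  have h4 := mul_left_cancel₀ h3.ne' h
  have hn : nn κ = nn κ' := by
    rcases lt_trichotomy (nn κ) (nn κ') with h6 | h6 | h6
    · exfalso
      have h7 := Lm_pow_lt hm h6
      nlinarith
    · exact h6
    · exfalso
      have h7 := Lm_pow_lt hm h6
      nlinarith
  rw [hn] at h4
  have hw := mul_left_cancel₀ h2'.ne' h4
  obtain ⟨h6, h7⟩ := nn_inj hn
  rcases κ with ⟨s, ⟨i, l⟩ | t⟩ <;> rcases κ' with ⟨s', ⟨i', l'⟩ | t'⟩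
  · simp only [Sum.elim_inl] at h7
    have h8 : i = i' := Fin.ext (by omega)
    simp only [ww, Sum.elim_inl] at hw
    have h9 : l = l' := by
      cases l <;> cases l' <;> simp_all
    simp only at h6
    subst_vars; rfl
  · simp only [Sum.elim_inl, Sum.elim_inr] at h7
    omega
  · simp only [Sum.elim_inl, Sum.elim_inr] at h7
    omega
  · simp only [ww, Sum.elim_inr] at hw
    have h8 := ze_pos (k := k) hm hB j
    have h9 : ((t : ℕ) : ℝ) = ((t' : ℕ) : ℝ) := by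
      have : ze m k B j * ((t : ℕ) : ℝ) = ze m k B j * ((t' : ℕ) : ℝ) := by linarith
      exact mul_left_cancel₀ h8.ne' this
    have h10 : t = t' := Fin.ext (by exact_mod_cast h9)
    simp only at h6
    subst_vars; rfl

end

/-- all parameters, fillers included -/
noncomputable def par (m : ℕ) {S k B : ℕ} (F : ℕ) (j : Fin m) : KK S k B ⊕ Fin F → ℝ :=
  Sum.elim (par0 m j) (fun f => 1 / 2 + ((f : ℕ) : ℝ) / (4 * (F + 1)))

lemma par_lt {F : ℕ} (hm : 1 ≤ m) (hB : 1 ≤ B) (j : Fin m) (p : KK S k B ⊕ Fin F) :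
    |par m F j p| < 1 := by
  rcases p with κ | f
  · have h1 := par0_pos hm hB j κ
    have h2 := par0_lt hm hB j κ
    simp only [par, Sum.elim_inl]
    rw [abs_of_pos h1]
    linarith
  · simp only [par, Sum.elim_inr]
    have h1 : (0 : ℝ) ≤ ((f : ℕ) : ℝ) := Nat.cast_nonneg _
    have h2 : ((f : ℕ) : ℝ) ≤ F := by exact_mod_cast f.2.le
    have h3 : (0 : ℝ) ≤ F := Nat.cast_nonneg _
    have h4 : ((f : ℕ) : ℝ) / (4 * (F + 1)) ≤ 1 / 4 := by
      rw [div_le_div_iff₀ (by positivity) (by norm_num)]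
      linarith
    have h5 : 0 ≤ ((f : ℕ) : ℝ) / (4 * (F + 1)) := by positivity
    rw [abs_of_nonneg (by linarith)]
    linarith

lemma par_inj {F : ℕ} (hm : 1 ≤ m) (hB : 1 ≤ B) (j : Fin m) :
    Function.Injective (par m (S := S) (k := k) (B := B) F j) := by
  have hcross : ∀ (κ : KK S k B) (f : Fin F),
      par0 m j κ ≠ 1 / 2 + ((f : ℕ) : ℝ) / (4 * (F + 1)) := by
    intro κ f h
    have h2 := par0_lt hm hB j κ
    have h5 : 0 ≤ ((f : ℕ) : ℝ) / (4 * (F + 1)) := by positivity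
    linarith
  rintro (κ | f) (κ' | f') h
  · simp only [par, Sum.elim_inl] at h
    rw [par0_inj hm hB j h]
  · simp only [par, Sum.elim_inl, Sum.elim_inr] at h
    exact absurd h (hcross κ f')
  · simp only [par, Sum.elim_inl, Sum.elim_inr] at h
    exact absurd h.symm (hcross κ' f)
  · simp only [par, Sum.elim_inr] at h
    have h1 : (0 : ℝ) < 4 * ((F : ℝ) + 1) := by positivity
    have h2 : ((f : ℕ) : ℝ) / (4 * (F + 1)) = ((f' : ℕ) : ℝ) / (4 * (F + 1)) := by linarith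
    have h3 : ((f : ℕ) : ℝ) = ((f' : ℕ) : ℝ) := by
      field_simp at h2
      exact h2
    have h4 : f = f' := Fin.ext (by exact_mod_cast h3)
    rw [h4]

end Pool.Agent.H4.Pol2
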