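import Pool.Agent.H4.Pol2.Par
import Pool.Agent.H4.Pol2.Asm

/-! The new vertices of the second construction. -/

namespace Pool.Agent.H4.Pol2

open Finset
open Pool.Agent.H4.Pol

/-- the `x`-value of a code parameter of the own block -/
noncomputable def xc (m k B : ℕ) (j i t : ℕ) : ℝ :=
  (1 + ze m k B j * (t : ℝ)) / Lm m ^ (i + 1)

/-- the data of a new vertex: blocks, slots and thresholds -/
structure PD (m o S k B : ℕ) where
  s : Fin m → Fin S
  i : Fin m → Fin k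
  T : (Fin m × Bool) ⊕ Fin o → Fin m → Fin B

variable {m o S k B : ℕ}

/-- the plane, the cluster position and the signs belonging to a threshold -/
def plA (j0 : Fin m) : (Fin m × Bool) ⊕ Fin o → Fin m := Sum.elim (fun p => p.1) (fun _ => j0)

def clA : (Fin m × Bool) ⊕ Fin o → Bool := Sum.elim (fun p => p.2) (fun _ => false)

def eoA : (Fin m × Bool) ⊕ Fin o → Fin o → Bool :=
  Sum.elim (fun _ _ => true) (fun i i' => decide (i' ≠ i))

namespace PD

variable (D : PD m o S k B)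

/-- the defining system -/
def SysP (y : Fin m → Bool → ℝ) : Prop :=
  (∀ j l, 9 / 10 ≤ y j l ∧ y j l ≤ 11 / 10) ∧
    ∀ j l, y j l + ∑ j' ∈ univ.erase j, gq (y j' false) (y j' true)
      (xc m k B j' (D.i j') (D.T (.inl (j, l)) j')) = 1 + dl m k B

noncomputable def y : Fin m → Bool → ℝ := Classical.epsilon D.SysP

/-- the quadratic function of plane `j`, in the scale of the own slot -/
noncomputable def psi (j : Fin m) (x : ℝ) : ℝ := gq (D.y j false) (D.y j true) x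

/-- own code values -/
noncomputable def xo (j : Fin m) (t : Fin B) : ℝ := xc m k B j (D.i j) t

/-- the unscaled last coordinates -/
noncomputable def zt (j0 : Fin m) (i : Fin o) : ℝ :=
  (1 / 2) * ∑ j' ∈ univ.erase j0, (D.psi j' (D.xo j' (D.T (.inr i) j')) -
    D.psi j' (D.xo j' (D.T (.inl (j0, false)) j')))

/-- own scale exponent -/
def nj (j : Fin m) : ℕ := (k + 1) * (D.s j) + (D.i j + 1)

/-- own scale -/
noncomputable def cj (j : Fin m) : ℝ := uu m S k * Lm m ^ D.nj j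

noncomputable def Aj (j : Fin m) : ℝ := (D.y j false - D.y j true / 2) / D.cj j ^ 2

noncomputable def Pj (j : Fin m) : ℝ := (2 * D.y j false - D.y j true / 2) / D.cj j

noncomputable def mu (j0 : Fin m) : ℝ := 1 / (1 + ∑ j, D.Aj j + ∑ i, D.zt j0 i)

/-- the new vertex -/
noncomputable def pt (j0 : Fin m) : YY m o :=
  (fun j => (D.mu j0 * D.Pj j, -(D.mu j0 * D.Aj j)), fun i => D.mu j0 * D.zt j0 i)

/-- the value of a parameter in the scale of the own slot -/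
noncomputable def xv (j : Fin m) (κ : KK S k B) : ℝ :=
  Lm m ^ nn κ * ww m j κ / Lm m ^ D.nj j

/-- the quantity whose sign decides visibility -/
noncomputable def Qv (j0 : Fin m) (t : Fin m → KK S k B) (e : Fin o → Bool) : ℝ :=
  ∑ j, D.psi j (D.xv j (t j)) - 1 + ∑ i, (sg (e i) - 1) * D.zt j0 i

section

variable (hm : 1 ≤ m) (hB : 1 ≤ B)

include hm hB

omit hm hB in
lemma xc_def (j i t : ℕ) : xc m k B j i t = (1 + ze m k B j * (t : ℝ)) / Lm m ^ (i + 1) := rfl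

lemma xc_bounds (j i : ℕ) (t : Fin B) : 1 / Lm m ^ (i + 1) ≤ xc m k B j i t ∧
    xc m k B j i t ≤ 9 / 8 / Lm m ^ (i + 1) := by
  unfold xc
  have h1 := ze_pos (k := k) hm hB j
  have h2 : ((t : ℕ) : ℝ) ≤ B := by exact_mod_cast t.2.le
  have h3 : (0 : ℝ) ≤ ((t : ℕ) : ℝ) := Nat.cast_nonneg _
  have h4 := ze_mul_le (k := k) hm hB j
  have h5 : ze m k B j * ((t : ℕ) : ℝ) ≤ ze m k B j * B := mul_le_mul_of_nonneg_left h2 h1.le
  have h6 := mul_nonneg h1.le h3
  have h7 := Lm_pow_pos hm (i + 1)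
  constructor
  · exact div_le_div_of_nonneg_right (by linarith) h7.le
  · exact div_le_div_of_nonneg_right (by linarith) h7.le

lemma xc_nonneg (j i : ℕ) (t : Fin B) : 0 < xc m k B j i t :=
  lt_of_lt_of_le (by have := Lm_pow_pos hm (i + 1); positivity) (xc_bounds hm hB j i t).1

lemma xc_le (j i : ℕ) (t : Fin B) : (m : ℝ) * xc m k B j i t ≤ 9 / 512 := by
  have h1 := (xc_bounds (k := k) hm hB j i t).2
  have h2 : Lm m ≤ Lm m ^ (i + 1) := by
    rw [pow_succ]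
    have := Lm_pow_ge hm i
    have := Lm_pos hm
    nlinarith
  have h3 := Lm_pos hm
  have h4 : 9 / 8 / Lm m ^ (i + 1) ≤ 9 / 8 / Lm m :=
    div_le_div_of_nonneg_left (by norm_num) h3 h2
  have h5 : (0 : ℝ) ≤ m := Nat.cast_nonneg _
  have h6 : (m : ℝ) * (9 / 8 / Lm m) = 9 / 512 := by
    unfold Lm
    have : (m : ℝ) ≠ 0 := by
      have : (1 : ℝ) ≤ m := by exact_mod_cast hm
      linarith
    field_simp
    norm_num
  calc (m : ℝ) * xc m k B j i t ≤ m * (9 / 8 / Lm m) :=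
        mul_le_mul_of_nonneg_left (h1.trans h4) h5
    _ = 9 / 512 := h6

lemma xc_le' (j i : ℕ) (t : Fin B) : xc m k B j i t ≤ 1 / 16 := by
  have h1 := xc_le (k := k) hm hB j i t
  have h2 := xc_nonneg (k := k) hm hB j i t
  have h3 : (1 : ℝ) ≤ m := by exact_mod_cast hm
  nlinarith

lemma y_spec : D.SysP D.y := by
  apply Classical.epsilon_spec (p := D.SysP)
  exact exists_sys (fun j l j' => xc m k B j' (D.i j') (D.T (.inl (j, l)) j'))
    (fun j l j' => (xc_nonneg hm hB _ _ _).le)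
    (fun j l j' => (xc_le hm hB _ _ _).trans (by norm_num)) _ (dl_pos hm hB).le
    (dl_le' hm hB)

lemma y_ge (j : Fin m) (l : Bool) : 9 / 10 ≤ D.y j l := ((D.y_spec hm hB).1 j l).1

lemma y_le (j : Fin m) (l : Bool) : D.y j l ≤ 11 / 10 := ((D.y_spec hm hB).1 j l).2

lemma y_sys (j : Fin m) (l : Bool) : D.y j l + ∑ j' ∈ univ.erase j,
    D.psi j' (D.xo j' (D.T (.inl (j, l)) j')) = 1 + dl m k B := (D.y_spec hm hB).2 j l

lemma psi_mono (j : Fin m) {x x' : ℝ} (hxx : x ≤ x') (hx' : x' ≤ 1) :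
    D.psi j x ≤ D.psi j x' :=
  gq_mono (D.y_ge hm hB _ _) (D.y_le hm hB _ _) (D.y_ge hm hB _ _) (D.y_le hm hB _ _) hxx hx'

lemma psi_lower (j : Fin m) {x x' : ℝ} (hx : 0 ≤ x) (hxx : x ≤ x') (hx' : x' ≤ 1 / 16) :
    x' - x ≤ D.psi j x' - D.psi j x :=
  gq_lower (D.y_ge hm hB _ _) (D.y_le hm hB _ _) (D.y_ge hm hB _ _) (D.y_le hm hB _ _) hx hxx hx'

lemma psi_upper (j : Fin m) {x x' : ℝ} (hx : 0 ≤ x) (hxx : x ≤ x') (hx' : x' ≤ 1 / 16) :
    D.psi j x' - D.psi j x ≤ 2 * (x' - x) :=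
  gq_upper (D.y_ge hm hB _ _) (D.y_le hm hB _ _) (D.y_ge hm hB _ _) (D.y_le hm hB _ _) hx hxx hx'

lemma psi_upper0 (j : Fin m) {x : ℝ} (hx : 0 ≤ x) (hx' : x ≤ 1 / 16) : D.psi j x ≤ 2 * x :=
  gq_upper0 (D.y_ge hm hB _ _) (D.y_le hm hB _ _) (D.y_ge hm hB _ _) (D.y_le hm hB _ _) hx hx'

lemma psi_lower0 (j : Fin m) {x : ℝ} (hx : 0 ≤ x) (hx' : x ≤ 1 / 16) : x ≤ D.psi j x :=
  gq_lower0 (D.y_ge hm hB _ _) (D.y_le hm hB _ _) (D.y_ge hm hB _ _) (D.y_le hm hB _ _) hx hx'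

lemma psi_neg (j : Fin m) {x : ℝ} (hx : 8 ≤ x) : D.psi j x ≤ -2 :=
  gq_neg (D.y_ge hm hB _ _) (D.y_le hm hB _ _) (D.y_ge hm hB _ _) (D.y_le hm hB _ _) hx

lemma psi_le (j : Fin m) (x : ℝ) : D.psi j x ≤ 9 / 4 :=
  gq_le (D.y_ge hm hB _ _) (D.y_le hm hB _ _) (D.y_ge hm hB _ _) (D.y_le hm hB _ _) x

lemma psi_xo (j : Fin m) (t : Fin B) : 0 < D.psi j (D.xo j t) ∧
    D.psi j (D.xo j t) ≤ 9 / 256 / m := by
  have h1 := xc_nonneg (k := k) hm hB j (D.i j) t
  have h2 := xc_le' (k := k) hm hB j (D.i j) t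
  have h3 := xc_le (k := k) hm hB j (D.i j) t
  have h4 := D.psi_upper0 hm hB j h1.le h2
  have h5 := D.psi_lower0 hm hB j h1.le h2
  have h6 : (1 : ℝ) ≤ m := by exact_mod_cast hm
  refine ⟨lt_of_lt_of_le h1 h5, ?_⟩
  rw [le_div_iff₀ (by linarith)]
  have h7 := mul_le_mul_of_nonneg_right h4 (by linarith : (0 : ℝ) ≤ m)
  unfold xo
  linarith

lemma zt_abs (j0 : Fin m) (i : Fin o) : |D.zt j0 i| ≤ 1 / 32 := by
  have h6 : (1 : ℝ) ≤ m := by exact_mod_cast hm
  unfold zt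
  rw [abs_mul, abs_of_pos (by norm_num : (0 : ℝ) < 1 / 2)]
  have h1 : ∀ j' ∈ univ.erase j0, |D.psi j' (D.xo j' (D.T (.inr i) j')) -
      D.psi j' (D.xo j' (D.T (.inl (j0, false)) j'))| ≤ 9 / 256 / m := by
    intro j' _
    have h1 := D.psi_xo hm hB j' (D.T (.inr i) j')
    have h2 := D.psi_xo hm hB j' (D.T (.inl (j0, false)) j')
    rw [abs_le]
    constructor <;> linarith
  have h2 : |∑ j' ∈ univ.erase j0, (D.psi j' (D.xo j' (D.T (.inr i) j')) -
      D.psi j' (D.xo j' (D.T (.inl (j0, false)) j')))| ≤ 9 / 256 := by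
    calc _ ≤ ∑ j' ∈ univ.erase j0, |D.psi j' (D.xo j' (D.T (.inr i) j')) -
        D.psi j' (D.xo j' (D.T (.inl (j0, false)) j'))| := abs_sum_le_sum_abs _ _
      _ ≤ ∑ j' ∈ univ.erase j0, 9 / 256 / (m : ℝ) := sum_le_sum h1
      _ ≤ ∑ j' : Fin m, 9 / 256 / (m : ℝ) :=
          sum_le_sum_of_subset_of_nonneg (erase_subset _ _) fun _ _ _ => by positivity
      _ = 9 / 256 := by
          rw [sum_const, card_univ, Fintype.card_fin, nsmul_eq_mul]
          field_simp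
  linarith

lemma zt_sum (ho : o ≤ 1) (j0 : Fin m) : |∑ i, D.zt j0 i| ≤ 1 / 32 := by
  calc |∑ i, D.zt j0 i| ≤ ∑ i, |D.zt j0 i| := abs_sum_le_sum_abs _ _
    _ ≤ ∑ i : Fin o, (1 / 32 : ℝ) := sum_le_sum fun i _ => D.zt_abs hm hB j0 i
    _ = o * (1 / 32) := by rw [sum_const, card_univ, Fintype.card_fin, nsmul_eq_mul]
    _ ≤ 1 / 32 := by
        have : (o : ℝ) ≤ 1 := by exact_mod_cast ho
        nlinarith

lemma cj_pos (j : Fin m) : 0 < D.cj j :=
  mul_pos (uu_pos hm) (Lm_pow_pos hm _)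

lemma cj_le (j : Fin m) : D.cj j ≤ 1 / 32 := by
  have h := par0_lt (S := S) (k := k) hm hB (j : ℕ) (D.s j, (.inl (D.i j, false) :
    (Fin k × Bool) ⊕ Fin B))
  have h2 : par0 m (j : ℕ) (D.s j, (.inl (D.i j, false) : (Fin k × Bool) ⊕ Fin B)) =
      D.cj j := by
    unfold par0 cj nj nn ww
    simp
  rw [← h2]
  exact h

lemma Aj_ge (j : Fin m) : 4 ≤ D.Aj j := by
  have h1 := D.cj_pos hm hB j
  have h2 := D.cj_le hm hB j
  have h3 := D.y_ge hm hB j false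
  have h4 := D.y_le hm hB j true
  unfold Aj
  rw [le_div_iff₀ (by positivity)]
  have h5 : D.cj j ^ 2 ≤ (1 / 32) ^ 2 := pow_le_pow_left₀ h1.le h2 2
  nlinarith

lemma mu_den (ho : o ≤ 1) (j0 : Fin m) : 4 ≤ 1 + ∑ j, D.Aj j + ∑ i, D.zt j0 i := by
  have h1 := (abs_le.1 (D.zt_sum hm hB ho j0)).1
  have h2 : D.Aj j0 ≤ ∑ j, D.Aj j :=
    single_le_sum (f := fun j => D.Aj j) (fun j _ => by linarith [D.Aj_ge hm hB j]) (mem_univ j0)
  have h3 := D.Aj_ge hm hB j0
  linarith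

lemma mu_pos (ho : o ≤ 1) (j0 : Fin m) : 0 < D.mu j0 := by
  have := D.mu_den hm hB ho j0
  unfold mu
  positivity

/-- the functional of a plane at the new vertex -/
lemma dot_pt (ho : o ≤ 1) (j0 j : Fin m) (σ : ℝ) :
    dot (av σ) ((D.pt j0).1 j) = D.mu j0 * (D.Aj j + D.psi j (σ / D.cj j)) := by
  have h1 := (D.cj_pos hm hB j).ne'
  simp only [pt, dot, av, Aj, Pj, psi, gq]
  field_simp
  ring

lemma dot_lt (hm2 : 2 ≤ m) (ho : o ≤ 1) (j0 j : Fin m) (σ : ℝ) :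
    dot (av σ) ((D.pt j0).1 j) < 1 := by
  rw [D.dot_pt hm hB ho]
  have h1 := D.mu_den hm hB ho j0
  have h2 := D.psi_le hm hB j (σ / D.cj j)
  have h3 := (abs_le.1 (D.zt_sum hm hB ho j0)).1
  obtain ⟨j', hj'⟩ : ∃ j' : Fin m, j' ≠ j := by
    haveI : Nontrivial (Fin m) := Fin.nontrivial_iff_two_le.2 hm2
    exact exists_ne j
  have h4 : D.Aj j + D.Aj j' ≤ ∑ j, D.Aj j := by
    rw [← sum_pair hj'.symm]
    exact sum_le_sum_of_subset_of_nonneg (subset_univ _)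
      fun i _ _ => by linarith [D.Aj_ge hm hB i]
  have h5 := D.Aj_ge hm hB j'
  unfold mu
  rw [one_div, inv_mul_lt_iff₀ (by linarith)]
  linarith

lemma z_lt (ho : o ≤ 1) (j0 : Fin m) (i : Fin o) : |(D.pt j0).2 i| < 1 := by
  have h1 := D.mu_den hm hB ho j0
  have h2 := D.zt_abs hm hB j0 i
  have h3 := D.mu_pos hm hB ho j0
  have h4 : D.mu j0 ≤ 1 := by
    unfold mu
    rw [div_le_one (by linarith)]
    linarith
  show |D.mu j0 * D.zt j0 i| < 1
  rw [abs_mul, abs_of_pos h3]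
  have := abs_nonneg (D.zt j0 i)
  nlinarith

/-- the test functional at the new vertex -/
lemma Lt_pt {F : ℕ} (ho : o ≤ 1) (j0 : Fin m) (t : Fin m → KK S k B) (e : Fin o → Bool) :
    Lt (par m F) t e (D.pt j0) = 1 + D.mu j0 * D.Qv j0 t e := by
  have h1 := D.mu_den hm hB ho j0
  have hx : ∀ j, par m F j (.inl (t j)) / D.cj j = D.xv j (t j) := by
    intro j
    have h2 := (Lm_pow_pos hm (D.nj j)).ne'
    have h3 := (uu_pos (S := S) (k := k) hm).ne'
    simp only [par, Sum.elim_inl, par0, cj, xv]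
    field_simp
  unfold Lt
  rw [Lg_apply]
  have h2 : ∀ j, dot (av (par m F j (.inl (t j)))) ((D.pt j0).1 j) =
      D.mu j0 * D.Aj j + D.mu j0 * D.psi j (D.xv j (t j)) := by
    intro j
    rw [D.dot_pt hm hB ho, hx j, mul_add]
  rw [sum_congr rfl fun j _ => h2 j, sum_add_distrib, ← mul_sum, ← mul_sum]
  have h3 : ∀ i, sg (e i) * (D.pt j0).2 i = D.mu j0 * D.zt j0 i +
      D.mu j0 * ((sg (e i) - 1) * D.zt j0 i) := by
    intro i
    show sg (e i) * (D.mu j0 * D.zt j0 i) = _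
    ring
  rw [sum_congr rfl fun i _ => h3 i, sum_add_distrib, ← mul_sum, ← mul_sum]
  have h4 : D.mu j0 * (1 + ∑ j, D.Aj j + ∑ i, D.zt j0 i) = 1 := by
    unfold mu
    rw [one_div, inv_mul_cancel₀ (by linarith)]
  unfold Qv
  linear_combination h4

lemma Lt_gt_iff {F : ℕ} (ho : o ≤ 1) (j0 : Fin m) (t : Fin m → KK S k B) (e : Fin o → Bool) :
    1 < Lt (par m F) t e (D.pt j0) ↔ 0 < D.Qv j0 t e := by
  rw [D.Lt_pt hm hB ho]
  have h := D.mu_pos hm hB ho j0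
  constructor
  · intro h1
    have : 0 < D.mu j0 * D.Qv j0 t e := by linarith
    exact (mul_pos_iff_of_pos_left h).1 this
  · intro h1
    have := mul_pos h h1
    linarith

lemma Lt_lt_iff {F : ℕ} (ho : o ≤ 1) (j0 : Fin m) (t : Fin m → KK S k B) (e : Fin o → Bool) :
    Lt (par m F) t e (D.pt j0) < 1 ↔ D.Qv j0 t e < 0 := by
  rw [D.Lt_pt hm hB ho]
  have h := D.mu_pos hm hB ho j0
  constructor
  · intro h1
    by_contra h2
    push Not at h2
    have := mul_nonneg h.le h2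
    linarith
  · intro h1
    have := mul_neg_of_pos_of_neg h h1
    linarith

omit hm hB in
/-- the sign part -/
lemma sign_sum (j0 : Fin m) (a : (Fin m × Bool) ⊕ Fin o) :
    ∑ i, (sg (eoA a i) - 1) * D.zt j0 i =
      Sum.elim (fun _ => 0) (fun i => -(2 * D.zt j0 i)) a := by
  rcases a with p | i
  · simp [eoA, sg]
  · simp only [eoA, Sum.elim_inr]
    rw [sum_eq_single i]
    · simp [sg]; ring
    · intro i' _ hi'
      simp [sg, hi']
    · simp

/-- the value at a point with slot and codes, relative to the thresholds -/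
lemma thr_id (j0 : Fin m) (a : (Fin m × Bool) ⊕ Fin o) :
    D.y (plA j0 a) (clA a) + ∑ j' ∈ univ.erase (plA j0 a), D.psi j' (D.xo j' (D.T a j')) - 1 +
      ∑ i, (sg (eoA a i) - 1) * D.zt j0 i = dl m k B := by
  rw [D.sign_sum]
  rcases a with ⟨j, l⟩ | i
  · simp only [plA, clA, Sum.elim_inl]
    have := D.y_sys hm hB j l
    linarith
  · simp only [plA, clA, Sum.elim_inr]
    have := D.y_sys hm hB j0 false
    unfold zt
    rw [sum_sub_distrib]
    linarith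

lemma sign_abs (j0 : Fin m) (a : (Fin m × Bool) ⊕ Fin o) :
    ∑ i, (sg (eoA a i) - 1) * D.zt j0 i ≤ 1 / 16 := by
  rw [D.sign_sum]
  rcases a with ⟨j, l⟩ | i
  · simp only [Sum.elim_inl]; norm_num
  · simp only [Sum.elim_inr]
    have := (abs_le.1 (D.zt_abs hm hB j0 i)).1
    linarith

end

end PD

end Pool.Agent.H4.Pol2
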