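import Mathlib

/-! The quadratic functions of a new vertex and the linear system defining them. -/

namespace Pool.Agent.H4.Pol2

/-- the quadratic polynomial with values `0, y0, y1` at `0, 1, 2` -/
noncomputable def gq (y0 y1 x : ℝ) : ℝ := y0 * (x * (2 - x)) + y1 * (x * (x - 1) / 2)

lemma gq_zero (y0 y1 : ℝ) : gq y0 y1 0 = 0 := by simp [gq]

lemma gq_one (y0 y1 : ℝ) : gq y0 y1 1 = y0 := by simp [gq]; ring

lemma gq_two (y0 y1 : ℝ) : gq y0 y1 2 = y1 := by simp [gq]; ring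

lemma gq_sub (y0 y1 x x' : ℝ) : gq y0 y1 x' - gq y0 y1 x =
    (x' - x) * ((2 * y0 - y1 / 2) - (y0 - y1 / 2) * (x + x')) := by
  unfold gq; ring

section bounds

variable {y0 y1 : ℝ} (h0 : 9 / 10 ≤ y0) (h0' : y0 ≤ 11 / 10) (h1 : 9 / 10 ≤ y1)
  (h1' : y1 ≤ 11 / 10)

include h0 h0' h1 h1'

lemma gq_mono {x x' : ℝ} (hxx : x ≤ x') (hx' : x' ≤ 1) : gq y0 y1 x ≤ gq y0 y1 x' := by
  have h := gq_sub y0 y1 x x'
  have h2 : 0 ≤ (2 * y0 - y1 / 2) - (y0 - y1 / 2) * (x + x') := by nlinarith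
  have h3 := mul_nonneg (sub_nonneg.2 hxx) h2
  linarith

lemma gq_lower {x x' : ℝ} (hx : 0 ≤ x) (hxx : x ≤ x') (hx' : x' ≤ 1 / 16) :
    x' - x ≤ gq y0 y1 x' - gq y0 y1 x := by
  rw [gq_sub]
  have h2 : 1 ≤ (2 * y0 - y1 / 2) - (y0 - y1 / 2) * (x + x') := by nlinarith
  nlinarith

lemma gq_upper {x x' : ℝ} (hx : 0 ≤ x) (hxx : x ≤ x') (hx' : x' ≤ 1 / 16) :
    gq y0 y1 x' - gq y0 y1 x ≤ 2 * (x' - x) := by
  rw [gq_sub]
  have h2 : (2 * y0 - y1 / 2) - (y0 - y1 / 2) * (x + x') ≤ 2 := by nlinarith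
  nlinarith

lemma gq_upper0 {x : ℝ} (hx : 0 ≤ x) (hx' : x ≤ 1 / 16) : gq y0 y1 x ≤ 2 * x := by
  have := gq_upper h0 h0' h1 h1' (le_refl 0) hx hx'
  rw [gq_zero] at this
  linarith

lemma gq_lower0 {x : ℝ} (hx : 0 ≤ x) (hx' : x ≤ 1 / 16) : x ≤ gq y0 y1 x := by
  have := gq_lower h0 h0' h1 h1' (le_refl 0) hx hx'
  rw [gq_zero] at this
  linarith

lemma gq_neg {x : ℝ} (hx : 8 ≤ x) : gq y0 y1 x ≤ -2 := by
  have h2 : gq y0 y1 x = x * ((2 * y0 - y1 / 2) - (y0 - y1 / 2) * x) := by unfold gq; ring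
  have h3 : (2 * y0 - y1 / 2) - (y0 - y1 / 2) * x ≤ -1 := by nlinarith
  rw [h2]
  nlinarith

lemma gq_le (x : ℝ) : gq y0 y1 x ≤ 9 / 4 := by
  have h2 : gq y0 y1 x = (2 * y0 - y1 / 2) * x - (y0 - y1 / 2) * x ^ 2 := by unfold gq; ring
  rw [h2]
  rcases le_or_gt x 0 with hx | hx
  · have h3 : 0 ≤ (y0 - y1 / 2) * x ^ 2 := mul_nonneg (by linarith) (sq_nonneg x)
    have h4 : (2 * y0 - y1 / 2) * x ≤ 0 := mul_nonpos_of_nonneg_of_nonpos (by linarith) hx
    linarith
  · have h3 : (35 / 100) * x ^ 2 ≤ (y0 - y1 / 2) * x ^ 2 :=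
      mul_le_mul_of_nonneg_right (by linarith) (sq_nonneg x)
    have h4 : (2 * y0 - y1 / 2) * x ≤ (175 / 100) * x :=
      mul_le_mul_of_nonneg_right (by linarith) hx.le
    nlinarith [sq_nonneg (x - 5 / 2)]

end bounds

lemma gq_abs (y0 y1 x M : ℝ) (h0 : |y0| ≤ M) (h1 : |y1| ≤ M) (hx : 0 ≤ x) (hx' : x ≤ 1) :
    |gq y0 y1 x| ≤ 5 / 2 * x * M := by
  have hM : 0 ≤ M := (abs_nonneg _).trans h0
  have a1 : |y0 * (x * (2 - x))| ≤ M * (2 * x) := by
    rw [abs_mul, abs_of_nonneg (mul_nonneg hx (by linarith : (0 : ℝ) ≤ 2 - x))]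
    exact mul_le_mul h0 (by nlinarith) (mul_nonneg hx (by linarith)) hM
  have a2 : |y1 * (x * (x - 1) / 2)| ≤ M * (x / 2) := by
    rw [abs_mul]
    have : |x * (x - 1) / 2| ≤ x / 2 := by
      rw [abs_le]
      constructor <;> nlinarith
    exact mul_le_mul h1 this (abs_nonneg _) hM
  calc |gq y0 y1 x| ≤ |y0 * (x * (2 - x))| + |y1 * (x * (x - 1) / 2)| := abs_add_le _ _
    _ ≤ M * (2 * x) + M * (x / 2) := add_le_add a1 a2
    _ = 5 / 2 * x * M := by ring

/-- The linear system of a new vertex is solvable, with a solution near `1`. -/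
theorem exists_sys {m : ℕ} (x : Fin m → Bool → Fin m → ℝ) (hx0 : ∀ j l j', 0 ≤ x j l j')
    (hx : ∀ j l j', (m : ℝ) * x j l j' ≤ 1 / 50) (δ : ℝ) (hδ0 : 0 ≤ δ) (hδ : δ ≤ 1 / 100) :
    ∃ y : Fin m → Bool → ℝ, (∀ j l, 9 / 10 ≤ y j l ∧ y j l ≤ 11 / 10) ∧
      ∀ j l, y j l + ∑ j' ∈ Finset.univ.erase j, gq (y j' false) (y j' true) (x j l j') =
        1 + δ := by
  classical
  rcases Nat.eq_zero_or_pos m with hm0 | hmpos
  · subst hm0
    exact ⟨fun j => j.elim0, fun j => j.elim0, fun j => j.elim0⟩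
  have hmR : (1 : ℝ) ≤ m := by exact_mod_cast hmpos
  have hm0 : (0 : ℝ) < m := by linarith
  have hx1 : ∀ j l j', x j l j' ≤ 1 := by
    intro j l j'
    have h1 := hx j l j'
    have h2 := hx0 j l j'
    nlinarith
  let R : (Fin m → Bool → ℝ) → (Fin m → Bool → ℝ) := fun y j l =>
    ∑ j' ∈ Finset.univ.erase j, gq (y j' false) (y j' true) (x j l j')
  have hR : ∀ y j l, |R y j l| ≤ ‖y‖ / 20 := by
    intro y j l
    have hy : ∀ j l, |y j l| ≤ ‖y‖ := by
      intro j l
      have h1 := norm_le_pi_norm (y j) l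
      have h2 := norm_le_pi_norm y j
      rw [Real.norm_eq_abs] at h1
      exact h1.trans h2
    have h1 : ∀ j' ∈ Finset.univ.erase j, |gq (y j' false) (y j' true) (x j l j')| ≤
        ‖y‖ / (20 * m) := by
      intro j' _
      refine (gq_abs _ _ _ ‖y‖ (hy _ _) (hy _ _) (hx0 j l j') (hx1 j l j')).trans ?_
      have h2 : x j l j' ≤ 1 / (50 * m) := by
        rw [le_div_iff₀ (by positivity)]
        have := hx j l j'
        nlinarith
      have h3 : 5 / 2 * x j l j' ≤ 1 / (20 * m) := by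
        have : 1 / (20 * (m : ℝ)) = 5 / 2 * (1 / (50 * m)) := by field_simp; norm_num
        rw [this]
        linarith
      calc 5 / 2 * x j l j' * ‖y‖ ≤ 1 / (20 * m) * ‖y‖ :=
            mul_le_mul_of_nonneg_right h3 (norm_nonneg _)
        _ = ‖y‖ / (20 * m) := by ring
    calc |R y j l| ≤ ∑ j' ∈ Finset.univ.erase j, |gq (y j' false) (y j' true) (x j l j')| :=
          Finset.abs_sum_le_sum_abs _ _
      _ ≤ ∑ j' ∈ Finset.univ.erase j, ‖y‖ / (20 * m) := Finset.sum_le_sum h1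
      _ ≤ ∑ j' : Fin m, ‖y‖ / (20 * m) := by
          apply Finset.sum_le_sum_of_subset_of_nonneg (Finset.erase_subset _ _)
          intro _ _ _
          positivity
      _ = ‖y‖ / 20 := by
          rw [Finset.sum_const, Finset.card_univ, Fintype.card_fin, nsmul_eq_mul]
          field_simp
  let T : (Fin m → Bool → ℝ) →ₗ[ℝ] (Fin m → Bool → ℝ) :=
    { toFun := fun y j l => y j l + R y j l
      map_add' := by
        intro y y'
        funext j l
        simp only [R, Pi.add_apply]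
        have : ∀ j', gq (y j' false + y' j' false) (y j' true + y' j' true) (x j l j') =
            gq (y j' false) (y j' true) (x j l j') + gq (y' j' false) (y' j' true) (x j l j') := by
          intro j'; unfold gq; ring
        simp only [this, Finset.sum_add_distrib]
        ring
      map_smul' := by
        intro c y
        funext j l
        simp only [R, Pi.smul_apply, smul_eq_mul, RingHom.id_apply]
        have : ∀ j', gq (c * y j' false) (c * y j' true) (x j l j') =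
            c * gq (y j' false) (y j' true) (x j l j') := by
          intro j'; unfold gq; ring
        simp only [this, ← Finset.mul_sum]
        ring }
  have hT : ∀ y j l, T y j l = y j l + R y j l := fun _ _ _ => rfl
  have hbd : ∀ (y : Fin m → Bool → ℝ) (C : ℝ), 0 ≤ C → (∀ j l, |T y j l| ≤ C) →
      ‖y‖ ≤ 20 / 19 * C := by
    intro y C hC h
    have h1 : ‖y‖ ≤ C + ‖y‖ / 20 := by
      rw [pi_norm_le_iff_of_nonneg (by positivity)]
      intro j
      rw [pi_norm_le_iff_of_nonneg (by positivity)]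
      intro l
      rw [Real.norm_eq_abs]
      have h2 : y j l = T y j l - R y j l := by rw [hT]; ring
      rw [h2]
      exact (abs_sub _ _).trans (add_le_add (h j l) (hR y j l))
    linarith
  have hinj : Function.Injective T := by
    rw [injective_iff_map_eq_zero]
    intro y hy
    have h1 := hbd y 0 le_rfl (fun j l => by rw [hy]; simp)
    have h2 : ‖y‖ ≤ 0 := by linarith
    exact norm_le_zero_iff.1 h2
  have hsurj : Function.Surjective T := LinearMap.injective_iff_surjective.1 hinj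
  obtain ⟨y, hy⟩ := hsurj (fun _ _ => 1 + δ)
  have hy' : ∀ j l, y j l + R y j l = 1 + δ := fun j l => by
    have := congrFun (congrFun hy j) l
    rw [hT] at this
    exact this
  have hn := hbd y (1 + δ) (by linarith) (fun j l => by
    rw [hT, hy' j l, abs_of_nonneg (by linarith)])
  refine ⟨y, fun j l => ?_, hy'⟩
  have h1 := abs_le.1 (hR y j l)
  have h2 := hy' j l
  constructor <;> linarith [h1.1, h1.2]

end Pool.Agent.H4.Pol2
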