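import Pool.Agent.H4.Pol2.Pt

/-! Signs of the tests at the new vertices. -/

namespace Pool.Agent.H4.Pol2

open Finset
open Pool.Agent.H4.Pol

variable {m o S k B : ℕ}

lemma nn_slot (s : Fin S) (i : Fin k) (l : Bool) :
    nn ((s, .inl (i, l)) : KK S k B) = (k + 1) * s + (i + 1) := rfl

lemma nn_code (s : Fin S) (t : Fin B) : nn ((s, .inr t) : KK S k B) = (k + 1) * s := rfl

lemma nn_ge (κ : KK S k B) : (k + 1) * (κ.1 : ℕ) ≤ nn κ := by unfold nn; omega

lemma nn_lt' (κ : KK S k B) : nn κ < (k + 1) * ((κ.1 : ℕ) + 1) := by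
  unfold nn
  rcases κ with ⟨s, ⟨i, l⟩ | t⟩
  · simp only [Sum.elim_inl]
    have := i.2
    rw [Nat.mul_add]
    omega
  · simp only [Sum.elim_inr]
    rw [Nat.mul_add]
    omega

namespace PD

variable (D : PD m o S k B)

lemma nj_eq (j : Fin m) (l : Bool) : D.nj j = nn ((D.s j, .inl (D.i j, l)) : KK S k B) := rfl

lemma hit_iff (j : Fin m) (κ : KK S k B) : nn κ = D.nj j ↔
    ∃ l, κ = (D.s j, .inl (D.i j, l)) := by
  constructor
  · intro h
    rw [D.nj_eq j true] at h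
    obtain ⟨h1, h2⟩ := nn_inj h
    rcases κ with ⟨s, ⟨i, l⟩ | t⟩
    · simp only [Sum.elim_inl] at h2
      have h3 : i = D.i j := Fin.ext (by omega)
      simp only at h1
      subst h1 h3
      exact ⟨l, rfl⟩
    · simp only [Sum.elim_inl, Sum.elim_inr] at h2
      omega
  · rintro ⟨l, rfl⟩
    rfl

section

variable (hm : 1 ≤ m) (hB : 1 ≤ B)

include hm hB

lemma xv_pos (j : Fin m) (κ : KK S k B) : 0 < D.xv j κ := by
  have h1 := ww_bounds hm hB j κ
  have h2 := Lm_pow_pos hm (nn κ)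
  have h3 := Lm_pow_pos hm (D.nj j)
  have : 0 < ww m j κ := by linarith
  unfold xv
  positivity

lemma xv_lt {j : Fin m} {κ : KK S k B} (h : nn κ < D.nj j) : D.xv j κ ≤ 2 / Lm m := by
  have h1 := ww_bounds hm hB j κ
  have h2 := Lm_pow_pos hm (nn κ)
  have h3 := Lm_pow_pos hm (D.nj j)
  have h4 := Lm_pos hm
  have h5 := Lm_pow_lt hm h
  unfold xv
  rw [div_le_div_iff₀ h3 h4]
  nlinarith

lemma xv_gt {j : Fin m} {κ : KK S k B} (h : D.nj j < nn κ) : 64 ≤ D.xv j κ := by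
  have h1 := ww_bounds hm hB j κ
  have h2 := Lm_pow_pos hm (nn κ)
  have h3 := Lm_pow_pos hm (D.nj j)
  have h4 := Lm_ge hm
  have h5 := Lm_pow_lt hm h
  unfold xv
  rw [le_div_iff₀ h3]
  nlinarith

lemma xv_hit (j : Fin m) (l : Bool) :
    D.psi j (D.xv j (D.s j, .inl (D.i j, l))) = D.y j l := by
  have h3 := Lm_pow_pos hm (D.nj j)
  have h4 : D.xv j (D.s j, .inl (D.i j, l)) = if l then 2 else 1 := by
    unfold xv
    rw [← D.nj_eq j l]
    simp only [ww, Sum.elim_inl]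
    rw [mul_comm, mul_div_assoc, div_self h3.ne', mul_one]
  rw [h4]
  unfold psi
  cases l
  · simp [gq_one]
  · simp [gq_two]

lemma xv_code (j : Fin m) (t : Fin B) : D.xv j (D.s j, .inr t) = D.xo j t := by
  unfold xv xo xc
  rw [nn_code]
  simp only [ww, Sum.elim_inr]
  have h1 := Lm_pow_pos hm ((k + 1) * (D.s j : ℕ))
  have h2 := Lm_pow_pos hm ((D.i j : ℕ) + 1)
  have h3 : D.nj j = (k + 1) * (D.s j : ℕ) + ((D.i j : ℕ) + 1) := rfl
  rw [h3, pow_add]
  field_simp

/-- no hit: the quadratic function is small or negative -/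
lemma psi_nohit {j : Fin m} {κ : KK S k B} (h : nn κ ≠ D.nj j) :
    D.psi j (D.xv j κ) ≤ 1 / 16 / m := by
  have hmR : (1 : ℝ) ≤ m := by exact_mod_cast hm
  have h0 := D.xv_pos hm hB j κ
  rcases lt_or_gt_of_ne h with h1 | h1
  · have h2 := D.xv_lt hm hB h1
    have h3 := Lm_ge hm
    have h4 : 2 / Lm m ≤ 1 / 16 := by
      rw [div_le_div_iff₀ (by linarith) (by norm_num)]
      linarith
    have h5 := D.psi_upper0 hm hB j h0.le (h2.trans h4)
    have h6 : 2 * (2 / Lm m) = 1 / 16 / m := by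
      unfold Lm
      field_simp
      norm_num
    linarith
  · have h2 := D.xv_gt hm hB h1
    have h3 := D.psi_neg hm hB j (x := D.xv j κ) (by linarith)
    have h4 : 0 < 1 / 16 / (m : ℝ) := by positivity
    linarith

/-- other blocks: the quadratic function is smaller than at all own codes -/
lemma psi_far {j : Fin m} {κ : KK S k B} (h : κ.1 ≠ D.s j) (t : Fin B) :
    D.psi j (D.xv j κ) - D.psi j (D.xo j t) < -dl m k B := by
  have h0 := D.xv_pos hm hB j κ
  have hx1 := (xc_bounds (k := k) hm hB j (D.i j) t).1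
  have hx2 := xc_le' (k := k) hm hB j (D.i j) t
  have hx3 := xc_nonneg (k := k) hm hB j (D.i j) t
  have h4 := D.psi_lower0 hm hB j hx3.le hx2
  have hik : (D.i j : ℕ) + 1 ≤ k := (D.i j).2
  have hp1 := Lm_pow_pos hm ((D.i j : ℕ) + 1)
  have hne : (κ.1 : ℕ) ≠ D.s j := fun h' => h (Fin.ext h')
  have hdl := dl_le (k := k) hm hB
  have hdl0 := dl_pos (k := k) hm hB
  unfold xo
  rcases lt_or_gt_of_ne hne with h1 | h1
  · -- lower block
    have h2 : nn κ < (k + 1) * (D.s j : ℕ) :=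
      lt_of_lt_of_le (nn_lt' κ) (Nat.mul_le_mul_left _ h1)
    have h3 := Lm_pow_lt hm h2
    have h5 := ww_bounds hm hB j κ
    have h6 := Lm_pow_pos hm (nn κ)
    have hL := Lm_ge hm
    have h7 : D.xv j κ ≤ 1 / 32 * (1 / Lm m ^ ((D.i j : ℕ) + 1)) := by
      have h8 : D.nj j = (k + 1) * (D.s j : ℕ) + ((D.i j : ℕ) + 1) := rfl
      unfold xv
      rw [h8, pow_add]
      have hp2 := Lm_pow_pos hm ((k + 1) * (D.s j : ℕ))
      have h9 : 1 / 32 * (1 / Lm m ^ ((D.i j : ℕ) + 1)) =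
          (1 / 32 * Lm m ^ ((k + 1) * (D.s j : ℕ))) /
            (Lm m ^ ((k + 1) * (D.s j : ℕ)) * Lm m ^ ((D.i j : ℕ) + 1)) := by
        field_simp
      rw [h9]
      apply div_le_div_of_nonneg_right _ (by positivity)
      nlinarith
    have h10 : 1 / Lm m ^ ((D.i j : ℕ) + 1) ≤ 1 := by
      rw [div_le_one hp1]
      exact Lm_pow_ge hm _
    have h11 := D.psi_upper0 hm hB j h0.le (by linarith)
    have h12 : dl m k B ≤ 1 / 128 * (1 / Lm m ^ ((D.i j : ℕ) + 1)) := by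
      have h13 : Lm m ^ ((D.i j : ℕ) + 1) ≤ Lm m ^ k :=
        pow_le_pow_right₀ (by linarith) hik
      have h14 : dl m k B * Lm m ^ ((D.i j : ℕ) + 1) ≤ 1 / 128 :=
        le_trans (mul_le_mul_of_nonneg_left h13 hdl0.le) hdl
      rw [mul_one_div, le_div_iff₀ hp1]
      exact h14
    have h15 : 0 < 1 / Lm m ^ ((D.i j : ℕ) + 1) := by positivity
    linarith
  · -- upper block
    have h2 : D.nj j < nn κ := by
      have h3 := nn_lt' ((D.s j, .inl (D.i j, true)) : KK S k B)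
      rw [← D.nj_eq j true] at h3
      have h5 : (k + 1) * ((D.s j : ℕ) + 1) ≤ (k + 1) * (κ.1 : ℕ) := Nat.mul_le_mul_left _ h1
      have h6 := nn_ge κ
      simp only at h3
      omega
    have h3 := D.psi_neg hm hB j (x := D.xv j κ) (by linarith [D.xv_gt hm hB h2])
    have h5 := dl_le' (k := k) hm hB
    linarith

/-- no hits: invisible -/
lemma Qv_nohit (j0 : Fin m) (a : (Fin m × Bool) ⊕ Fin o) (t : Fin m → KK S k B)
    (h : ∀ j, nn (t j) ≠ D.nj j) : D.Qv j0 t (eoA a) < 0 := by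
  have hmR : (1 : ℝ) ≤ m := by exact_mod_cast hm
  have h1 : ∑ j, D.psi j (D.xv j (t j)) ≤ ∑ j : Fin m, 1 / 16 / (m : ℝ) :=
    sum_le_sum fun j _ => D.psi_nohit hm hB (h j)
  have h2 : ∑ j : Fin m, 1 / 16 / (m : ℝ) = 1 / 16 := by
    rw [sum_const, card_univ, Fintype.card_fin, nsmul_eq_mul]
    field_simp
  have h3 := D.sign_abs hm hB j0 a
  unfold Qv
  linarith

/-- the value in terms of the threshold -/
lemma Qv_thr (j0 : Fin m) (a : (Fin m × Bool) ⊕ Fin o) (t : Fin m → KK S k B)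
    (ht : t (plA j0 a) = (D.s (plA j0 a), .inl (D.i (plA j0 a), clA a))) :
    D.Qv j0 t (eoA a) = dl m k B + ∑ j' ∈ univ.erase (plA j0 a),
      (D.psi j' (D.xv j' (t j')) - D.psi j' (D.xo j' (D.T a j'))) := by
  have h1 := D.thr_id hm hB j0 a
  have h2 : ∑ j, D.psi j (D.xv j (t j)) = D.psi (plA j0 a) (D.xv (plA j0 a) (t (plA j0 a))) +
      ∑ j' ∈ univ.erase (plA j0 a), D.psi j' (D.xv j' (t j')) :=
    (add_sum_erase _ (fun j => D.psi j (D.xv j (t j))) (mem_univ _)).symm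
  have h3 : D.psi (plA j0 a) (D.xv (plA j0 a) (t (plA j0 a))) = D.y (plA j0 a) (clA a) := by
    rw [ht, D.xv_hit hm hB]
  unfold Qv
  rw [h2, h3, sum_sub_distrib]
  linarith

/-- hit in one plane, other blocks in all other planes: invisible -/
lemma Qv_other (hm2 : 2 ≤ m) (j0 : Fin m) (a : (Fin m × Bool) ⊕ Fin o) (t : Fin m → KK S k B)
    (ht : t (plA j0 a) = (D.s (plA j0 a), .inl (D.i (plA j0 a), clA a)))
    (ht' : ∀ j', j' ≠ plA j0 a → (t j').1 ≠ D.s j') : D.Qv j0 t (eoA a) < 0 := by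
  rw [D.Qv_thr hm hB j0 a t ht]
  obtain ⟨j1, hj1⟩ : ∃ j1 : Fin m, j1 ≠ plA j0 a := by
    have : Nontrivial (Fin m) := Fin.nontrivial_iff_two_le.2 hm2
    exact exists_ne _
  have hd := dl_pos (k := k) hm hB
  have h1 : ∑ j' ∈ univ.erase (plA j0 a),
      (D.psi j' (D.xv j' (t j')) - D.psi j' (D.xo j' (D.T a j'))) <
      ∑ j' ∈ univ.erase (plA j0 a), (-dl m k B) :=
    sum_lt_sum_of_nonempty ⟨j1, mem_erase.2 ⟨hj1, mem_univ _⟩⟩
      fun j' hj' => D.psi_far hm hB (ht' j' (ne_of_mem_erase hj')) _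
  have h2 : ∑ j' ∈ univ.erase (plA j0 a), (-dl m k B) ≤ -dl m k B := by
    rw [sum_const, card_erase_of_mem (mem_univ _), card_univ, Fintype.card_fin, nsmul_eq_mul]
    have h3 : (1 : ℝ) ≤ ((m - 1 : ℕ) : ℝ) := by
      have : 1 ≤ m - 1 := by omega
      exact_mod_cast this
    nlinarith
  linarith

/-- own codes -/
lemma Qv_own (j0 : Fin m) (a : (Fin m × Bool) ⊕ Fin o) (t : Fin m → KK S k B)
    (ht : t (plA j0 a) = (D.s (plA j0 a), .inl (D.i (plA j0 a), clA a)))
    (ht' : ∀ j', j' ≠ plA j0 a → t j' = (D.s j', .inr (D.T a j'))) :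
    D.Qv j0 t (eoA a) = dl m k B := by
  rw [D.Qv_thr hm hB j0 a t ht, sum_eq_zero, add_zero]
  intro j' hj'
  rw [ht' j' (ne_of_mem_erase hj'), D.xv_code hm hB, sub_self]

/-- lexicographically smaller codes: invisible -/
lemma Qv_lex (j0 : Fin m) (a : (Fin m × Bool) ⊕ Fin o) (t : Fin m → KK S k B)
    (τ : Fin m → Fin B)
    (ht : t (plA j0 a) = (D.s (plA j0 a), .inl (D.i (plA j0 a), clA a)))
    (ht' : ∀ j', j' ≠ plA j0 a → t j' = (D.s j', .inr (τ j')))
    (js : Fin m) (hjs : js ≠ plA j0 a) (hlt : τ js < D.T a js)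
    (heq : ∀ j', j' ≠ plA j0 a → j' < js → τ j' = D.T a j') :
    D.Qv j0 t (eoA a) < 0 := by
  rw [D.Qv_thr hm hB j0 a t ht]
  have hmR : (1 : ℝ) ≤ m := by exact_mod_cast hm
  have hBR : (1 : ℝ) ≤ B := by exact_mod_cast hB
  have hLk := Lm_pow_pos hm k
  have hLk1 := Lm_pow_ge hm k
  have hz := ze_pos (k := k) hm hB js
  set Z : ℝ := ze m k B js / Lm m ^ k with hZ
  have hZ0 : 0 < Z := div_pos hz hLk
  have hterm : ∀ j' ∈ univ.erase (plA j0 a),
      (D.psi j' (D.xv j' (t j')) - D.psi j' (D.xo j' (D.T a j'))) ≤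
      (if j' = js then -Z else 0) + Z / 8 / m := by
    intro j' hj'
    have hne := ne_of_mem_erase hj'
    rw [ht' j' hne, D.xv_code hm hB]
    have hZm : 0 < Z / 8 / m := by positivity
    have hx1 := xc_nonneg (k := k) hm hB j' (D.i j') (τ j')
    have hx2 := xc_nonneg (k := k) hm hB j' (D.i j') (D.T a j')
    have hx3 := xc_le' (k := k) hm hB j' (D.i j') (τ j')
    have hx4 := xc_le' (k := k) hm hB j' (D.i j') (D.T a j')
    have hdiff : ∀ t t' : Fin B, D.xo j' t' - D.xo j' t =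
        ze m k B j' * (((t' : ℕ) : ℝ) - ((t : ℕ) : ℝ)) / Lm m ^ ((D.i j' : ℕ) + 1) := by
      intro t t'
      unfold xo xc
      ring
    have hLi := Lm_pow_pos hm ((D.i j' : ℕ) + 1)
    have hLi1 := Lm_pow_ge hm ((D.i j' : ℕ) + 1)
    have hLik : Lm m ^ ((D.i j' : ℕ) + 1) ≤ Lm m ^ k :=
      pow_le_pow_right₀ (by linarith [Lm_ge hm]) (D.i j').2
    rcases lt_trichotomy j' js with hl | hl | hl
    · rw [heq j' hne hl, sub_self, if_neg hl.ne]
      linarith
    · subst hl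
      rw [if_pos rfl]
      have h1 : ((τ j' : ℕ) : ℝ) + 1 ≤ ((D.T a j' : ℕ) : ℝ) := by exact_mod_cast hlt
      have h2 : Z ≤ D.xo j' (D.T a j') - D.xo j' (τ j') := by
        rw [hdiff, hZ, div_le_div_iff₀ hLk hLi]
        have h3 : ze m k B j' * Lm m ^ ((D.i j' : ℕ) + 1) ≤ ze m k B j' * Lm m ^ k :=
          mul_le_mul_of_nonneg_left hLik hz.le
        have h4 : ze m k B j' * Lm m ^ k ≤
            ze m k B j' * (((D.T a j' : ℕ) : ℝ) - ((τ j' : ℕ) : ℝ)) * Lm m ^ k := by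
          have h5 : ze m k B j' ≤
              ze m k B j' * (((D.T a j' : ℕ) : ℝ) - ((τ j' : ℕ) : ℝ)) := by nlinarith
          exact mul_le_mul_of_nonneg_right h5 hLk.le
        linarith
      have h3 := D.psi_lower hm hB j' (x := D.xo j' (τ j')) (x' := D.xo j' (D.T a j'))
        hx1.le (by linarith) hx4
      linarith
    · rw [if_neg hl.ne', zero_add]
      have hz' := ze_pos (k := k) hm hB j'
      have h1 := ze_lt (k := k) hm hB (j := js) (j' := j') hl
      have hzB : 2 * (ze m k B j' * B) ≤ Z / 8 / m := by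
        have h2 : Z / 8 / m = ze m k B js / (8 * m * Lm m ^ k) := by
          rw [hZ]; field_simp
        rw [h2, le_div_iff₀ (by positivity)]
        linarith
      have hb1 : ((τ j' : ℕ) : ℝ) ≤ B := by exact_mod_cast (τ j').2.le
      have hb2 : (0 : ℝ) ≤ ((D.T a j' : ℕ) : ℝ) := Nat.cast_nonneg _
      have h3 : D.xo j' (τ j') - D.xo j' (D.T a j') ≤ ze m k B j' * B := by
        rw [hdiff, div_le_iff₀ hLi]
        have h5 : ze m k B j' * (((τ j' : ℕ) : ℝ) - ((D.T a j' : ℕ) : ℝ)) ≤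
            ze m k B j' * B := mul_le_mul_of_nonneg_left (by linarith) hz'.le
        have h6 : 0 ≤ ze m k B j' * B := by positivity
        nlinarith
      rcases le_total (D.xo j' (D.T a j')) (D.xo j' (τ j')) with h4 | h4
      · have h5 := D.psi_upper hm hB j' (x := D.xo j' (D.T a j')) (x' := D.xo j' (τ j'))
          hx2.le h4 hx3
        linarith
      · have h5 := D.psi_mono hm hB j' h4 (by unfold xo; linarith)
        linarith
  have hsum := sum_le_sum hterm
  rw [sum_add_distrib, sum_ite_eq' (univ.erase (plA j0 a)) js,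
    if_pos (mem_erase.2 ⟨hjs, mem_univ _⟩)] at hsum
  have h2 : ∑ j' ∈ univ.erase (plA j0 a), Z / 8 / (m : ℝ) ≤ Z / 8 := by
    calc ∑ j' ∈ univ.erase (plA j0 a), Z / 8 / (m : ℝ) ≤ ∑ j' : Fin m, Z / 8 / (m : ℝ) :=
          sum_le_sum_of_subset_of_nonneg (erase_subset _ _) fun _ _ _ => by positivity
      _ = Z / 8 := by
          rw [sum_const, card_univ, Fintype.card_fin, nsmul_eq_mul]
          field_simp
  have h3 : dl m k B ≤ Z / 16 := by
    have h1 := ze_lt (k := k) hm hB (j := js) (j' := m) js.2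
    have h4 := ze_pos (k := k) hm hB m
    have h5 : (16 : ℝ) ≤ 16 * m * B * Lm m ^ k := by
      have h3 : (1 : ℝ) ≤ m * B := one_le_mul_of_one_le_of_one_le hmR hBR
      have h4 : (1 : ℝ) ≤ m * B * Lm m ^ k := one_le_mul_of_one_le_of_one_le h3 hLk1
      nlinarith
    have h6 : ze m k B m * 16 ≤ ze m k B js :=
      le_trans (mul_le_mul_of_nonneg_left h5 h4.le) h1
    unfold dl
    rw [hZ, div_div, div_le_div_iff₀ hLk (by positivity)]
    nlinarith
  linarith

/-- pairing test, invisible case -/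
lemma Qv_pair_inv (j0 : Fin m) (t : Fin m → KK S k B) (j1 j2 : Fin m) (h12 : j2 ≠ j1)
    (ht : t j1 = (D.s j1, .inl (D.i j1, false))) (ht2 : D.nj j2 < nn (t j2))
    (ht' : ∀ j', j' ≠ j1 → nn (t j') ≠ D.nj j') :
    D.Qv j0 t (eoA (.inl (j1, false))) < 0 := by
  have hmR : (1 : ℝ) ≤ m := by exact_mod_cast hm
  have h1 : ∑ j, D.psi j (D.xv j (t j)) = D.psi j1 (D.xv j1 (t j1)) +
      ∑ j' ∈ univ.erase j1, D.psi j' (D.xv j' (t j')) :=
    (add_sum_erase _ (fun j => D.psi j (D.xv j (t j))) (mem_univ _)).symm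
  have h2 : ∑ j' ∈ univ.erase j1, D.psi j' (D.xv j' (t j')) =
      D.psi j2 (D.xv j2 (t j2)) + ∑ j' ∈ (univ.erase j1).erase j2, D.psi j' (D.xv j' (t j')) :=
    (add_sum_erase _ (fun j => D.psi j (D.xv j (t j))) (mem_erase.2 ⟨h12, mem_univ _⟩)).symm
  have h3 : ∑ j' ∈ (univ.erase j1).erase j2, D.psi j' (D.xv j' (t j')) ≤ 1 / 16 := by
    calc _ ≤ ∑ j' ∈ (univ.erase j1).erase j2, 1 / 16 / (m : ℝ) := by
          apply sum_le_sum
          intro j' hj'
          exact D.psi_nohit hm hB (ht' j' (ne_of_mem_erase (mem_of_mem_erase hj')))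
      _ ≤ ∑ j' : Fin m, 1 / 16 / (m : ℝ) :=
          sum_le_sum_of_subset_of_nonneg (subset_univ _) fun _ _ _ => by positivity
      _ = 1 / 16 := by
          rw [sum_const, card_univ, Fintype.card_fin, nsmul_eq_mul]
          field_simp
  have h4 : D.psi j1 (D.xv j1 (t j1)) ≤ 11 / 10 := by
    rw [ht, D.xv_hit hm hB]
    exact D.y_le hm hB _ _
  have h5 := D.psi_neg hm hB j2 (x := D.xv j2 (t j2)) (by linarith [D.xv_gt hm hB ht2])
  have h6 := D.sign_abs hm hB j0 (.inl (j1, false))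
  unfold Qv
  rw [h1, h2]
  linarith

/-- pairing test, visible case -/
lemma Qv_pair_vis (j0 : Fin m) (t : Fin m → KK S k B) (j1 j2 : Fin m)
    (ht : t j1 = (D.s j1, .inl (D.i j1, false))) (i' : Fin k) (hi' : i' ≤ D.i j2)
    (ht2 : t j2 = (D.s j2, .inl (i', false))) (tmax : Fin B) (hmax : ∀ t : Fin B, t ≤ tmax)
    (ht' : ∀ j', j' ≠ j1 → j' ≠ j2 → t j' = (D.s j', .inr tmax)) :
    0 < D.Qv j0 t (eoA (.inl (j1, false))) := by
  rw [D.Qv_thr hm hB j0 (.inl (j1, false)) t ht]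
  have hd := dl_pos (k := k) hm hB
  have h1 : 0 ≤ ∑ j' ∈ univ.erase (plA j0 (.inl (j1, false) : (Fin m × Bool) ⊕ Fin o)),
      (D.psi j' (D.xv j' (t j')) - D.psi j' (D.xo j' (D.T (.inl (j1, false)) j'))) := by
    apply sum_nonneg
    intro j' hj'
    have hne : j' ≠ j1 := ne_of_mem_erase hj'
    rw [sub_nonneg]
    by_cases h2 : j' = j2
    · subst h2
      have hp1 := Lm_pow_pos hm ((D.i j' : ℕ) + 1)
      have hp2 := Lm_pow_pos hm ((k + 1) * (D.s j' : ℕ))
      have h8 : D.nj j' = (k + 1) * (D.s j' : ℕ) + ((D.i j' : ℕ) + 1) := rfl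
      have hxv : D.xv j' (t j') = Lm m ^ ((i' : ℕ) + 1) / Lm m ^ ((D.i j' : ℕ) + 1) := by
        rw [ht2]
        unfold xv
        rw [nn_slot, h8, pow_add (Lm m) ((k + 1) * (D.s j' : ℕ)) ((i' : ℕ) + 1),
          pow_add (Lm m) ((k + 1) * (D.s j' : ℕ)) ((D.i j' : ℕ) + 1)]
        simp only [ww, Sum.elim_inl, Bool.false_eq_true, if_false, mul_one]
        rw [mul_div_mul_left _ _ hp2.ne']
      have hle1 : D.xv j' (t j') ≤ 1 := by
        rw [hxv, div_le_one hp1]
        have hh : (i' : ℕ) ≤ D.i j' := hi'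
        exact pow_le_pow_right₀ (by linarith [Lm_ge hm]) (by omega)
      refine D.psi_mono hm hB j' ?_ hle1
      rw [hxv]
      refine (xc_bounds (k := k) hm hB j' (D.i j') _).2.trans ?_
      apply div_le_div_of_nonneg_right _ hp1.le
      have h9 : Lm m ≤ Lm m ^ ((i' : ℕ) + 1) := by
        rw [pow_succ]
        have := Lm_pow_ge hm (i' : ℕ)
        have := Lm_pos hm
        nlinarith
      linarith [Lm_ge hm]
    · rw [ht' j' hne h2, D.xv_code hm hB]
      refine D.psi_mono hm hB j' ?_ ?_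
      · unfold xo xc
        have hp1 := Lm_pow_pos hm ((D.i j' : ℕ) + 1)
        apply div_le_div_of_nonneg_right _ hp1.le
        have hz := ze_pos (k := k) hm hB j'
        have h3 : (((D.T (.inl (j1, false)) j' : Fin B) : ℕ) : ℝ) ≤ ((tmax : ℕ) : ℝ) := by
          exact_mod_cast hmax _
        have := mul_le_mul_of_nonneg_left h3 hz.le
        linarith
      · have := xc_le' (k := k) hm hB j' (D.i j') tmax
        unfold xo
        linarith
  linarith

end

end PD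

end Pool.Agent.H4.Pol2
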